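import Mathlib

set_option autoImplicit false

/-! # Lemma B: a family which is rational over a hypersurface satisfies an algebraic equation

Dimension count with boxes of exponents: the polynomials in `τ` variables with all exponents `≤ d`
form a space of dimension `(d+1)^|τ|`. -/

namespace Pool.Agent.QCG

open MvPolynomial

section

variable {K : Type*} [Field K]

/-- The polynomial with the coefficients `c` on the box `{0..d}^σ`. -/
noncomputable def boxPoly {σ : Type*} [Fintype σ] [DecidableEq σ] (d : ℕ) :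
    ((σ → Fin (d + 1)) → K) →ₗ[K] MvPolynomial σ K :=
  ∑ a : σ → Fin (d + 1), (monomial (Finsupp.equivFunOnFinite.symm fun i => (a i : ℕ))).comp
    (LinearMap.proj a)

theorem boxPoly_apply {σ : Type*} [Fintype σ] [DecidableEq σ] (d : ℕ)
    (c : (σ → Fin (d + 1)) → K) :
    boxPoly d c = ∑ a : σ → Fin (d + 1),
      monomial (Finsupp.equivFunOnFinite.symm fun i => (a i : ℕ)) (c a) := by
  simp [boxPoly, LinearMap.sum_apply]

theorem coeff_boxPoly {σ : Type*} [Fintype σ] [DecidableEq σ] (d : ℕ)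
    (c : (σ → Fin (d + 1)) → K) (a : σ → Fin (d + 1)) :
    coeff (Finsupp.equivFunOnFinite.symm fun i => (a i : ℕ)) (boxPoly d c) = c a := by
  rw [boxPoly_apply, coeff_sum, Finset.sum_eq_single a]
  · rw [coeff_monomial, if_pos rfl]
  · intro b _ hb
    rw [coeff_monomial, if_neg]
    intro h
    apply hb
    funext i
    have := DFunLike.congr_fun h i
    simp only [Finsupp.equivFunOnFinite_symm_apply_apply] at this
    exact Fin.ext this
  · intro h
    exact absurd (Finset.mem_univ a) h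

theorem boxPoly_injective {σ : Type*} [Fintype σ] [DecidableEq σ] (d : ℕ)
    {c : (σ → Fin (d + 1)) → K} (h : boxPoly d c = 0) : c = 0 := by
  funext a
  rw [← coeff_boxPoly d c a, h]
  simp

theorem degreeOf_boxPoly_le {σ : Type*} [Fintype σ] [DecidableEq σ] (d : ℕ)
    (c : (σ → Fin (d + 1)) → K) (i : σ) : degreeOf i (boxPoly d c) ≤ d := by
  rw [boxPoly_apply]
  refine (degreeOf_sum_le i _ _).trans (Finset.sup_le fun a _ => ?_)
  rw [degreeOf_eq_sup]
  refine Finset.sup_le fun m hm => ?_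
  have : m = Finsupp.equivFunOnFinite.symm fun i => (a i : ℕ) := by
    have h1 := support_monomial_subset hm
    simpa using h1
  rw [this]
  simp only [Finsupp.equivFunOnFinite_symm_apply_apply]
  exact Nat.lt_succ_iff.mp (a i).isLt

/-- The coefficients of a polynomial on the box `{0..m}^σ`. -/
noncomputable def boxCoeff {σ : Type*} [Fintype σ] [DecidableEq σ] (m : ℕ) :
    MvPolynomial σ K →ₗ[K] ((σ → Fin (m + 1)) → K) where
  toFun p a := coeff (Finsupp.equivFunOnFinite.symm fun i => (a i : ℕ)) p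
  map_add' p q := by funext a; simp
  map_smul' r p := by funext a; simp

theorem eq_zero_of_boxCoeff {σ : Type*} [Fintype σ] [DecidableEq σ] (m : ℕ)
    {p : MvPolynomial σ K} (hp : ∀ i, degreeOf i p ≤ m) (h : boxCoeff m p = 0) : p = 0 := by
  ext s
  by_cases hs : ∀ i, s i ≤ m
  · have := congrFun h fun i => ⟨s i, Nat.lt_succ_of_le (hs i)⟩
    simp only [boxCoeff, LinearMap.coe_mk, AddHom.coe_mk, Pi.zero_apply] at this
    rw [coeff_zero, ← this]
    congr 1
    ext i
    simp
  · push Not at hs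
    obtain ⟨i, hi⟩ := hs
    rw [coeff_zero]
    by_contra hne
    have h1 : s ∈ p.support := mem_support_iff.mpr hne
    have h2 : s i ≤ degreeOf i p := by
      rw [degreeOf_eq_sup]
      exact Finset.le_sup (f := fun m : σ →₀ ℕ => m i) h1
    have := hp i
    omega

/-- The substitution `Φ ↦ Φ(a/b) ∏ b^d`. -/
noncomputable def homog {σ τ : Type*} [Fintype τ] [DecidableEq τ] (d : ℕ)
    (a b : τ → MvPolynomial σ K) : ((τ → Fin (d + 1)) → K) →ₗ[K] MvPolynomial σ K :=
  ∑ e : τ → Fin (d + 1),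
    (LinearMap.mulRight K (∏ i, (a i ^ (e i : ℕ) * b i ^ (d - (e i : ℕ))))).comp
    ((Algebra.linearMap K (MvPolynomial σ K)).comp (LinearMap.proj e))

theorem homog_apply {σ τ : Type*} [Fintype τ] [DecidableEq τ] (d : ℕ)
    (a b : τ → MvPolynomial σ K) (c : (τ → Fin (d + 1)) → K) :
    homog d a b c = ∑ e : τ → Fin (d + 1),
      C (c e) * ∏ i, (a i ^ (e i : ℕ) * b i ^ (d - (e i : ℕ))) := by
  simp [homog, LinearMap.sum_apply, MvPolynomial.algebraMap_eq]

theorem eval_homog {σ τ : Type*} [Fintype τ] [DecidableEq τ] (d : ℕ)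
    (a b : τ → MvPolynomial σ K) (c : (τ → Fin (d + 1)) → K) (u : σ → K) (q : τ → K)
    (hq : ∀ i, q i * eval u (b i) = eval u (a i)) :
    eval u (homog d a b c) = eval q (boxPoly d c) * ∏ i, eval u (b i) ^ d := by
  rw [homog_apply, boxPoly_apply, map_sum, map_sum, Finset.sum_mul]
  refine Finset.sum_congr rfl fun e _ => ?_
  rw [map_mul, eval_C, eval_monomial, Finsupp.prod_fintype _ _ (fun i => by simp), map_prod,
    mul_assoc, ← Finset.prod_mul_distrib]
  congr 1
  refine Finset.prod_congr rfl fun i _ => ?_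
  simp only [map_mul, map_pow, ← hq i, Finsupp.equivFunOnFinite_symm_apply_apply]
  have h : (e i : ℕ) + (d - (e i : ℕ)) = d := by
    have := (e i).isLt
    omega
  rw [mul_pow, mul_assoc, ← pow_add, h]

theorem degreeOf_homog_le {σ τ : Type*} [Fintype τ] [DecidableEq τ] (d D : ℕ)
    (a b : τ → MvPolynomial σ K) (c : (τ → Fin (d + 1)) → K) (j : σ)
    (ha : ∀ i, degreeOf j (a i) ≤ D) (hb : ∀ i, degreeOf j (b i) ≤ D) :
    degreeOf j (homog d a b c) ≤ Fintype.card τ * (d * D) := by
  rw [homog_apply]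
  refine (degreeOf_sum_le j _ _).trans (Finset.sup_le fun e _ => ?_)
  refine (degreeOf_C_mul_le _ _ _).trans ?_
  refine (degreeOf_prod_le j _ _).trans ?_
  refine (Finset.sum_le_card_nsmul _ _ (d * D) fun i _ => ?_).trans ?_
  · refine (degreeOf_mul_le _ _ _).trans ?_
    have h1 := degreeOf_pow_le j (a i) (e i : ℕ)
    have h2 := degreeOf_pow_le j (b i) (d - (e i : ℕ))
    have h3 : (e i : ℕ) + (d - (e i : ℕ)) = d := by
      have := (e i).isLt
      omega
    calc _ ≤ (e i : ℕ) * degreeOf j (a i) + (d - (e i : ℕ)) * degreeOf j (b i) := add_le_add h1 h2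
      _ ≤ (e i : ℕ) * D + (d - (e i : ℕ)) * D := by
        gcongr
        · exact ha i
        · exact hb i
      _ = d * D := by rw [← add_mul, h3]
  · simp

theorem pow_le_pow_add (x y N : ℕ) (h : y ≤ x) : x ^ N ≤ y ^ N + N * (x - y) * x ^ (N - 1) := by
  induction N with
  | zero => simp
  | succ n ih =>
    obtain ⟨z, rfl⟩ := Nat.exists_eq_add_of_le h
    rcases Nat.eq_zero_or_pos n with rfl | hn
    · simp
    · have h1 : (y + z) ^ (n - 1) * (y + z) = (y + z) ^ n := by
        rw [← pow_succ]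
        congr 1
        omega
      have h2 : y ^ n ≤ (y + z) ^ n := Nat.pow_le_pow_left (Nat.le_add_right y z) n
      have e1 : y + z - y = z := by omega
      have e2 : n + 1 - 1 = n := by omega
      rw [e1] at ih
      rw [e1, e2]
      calc (y + z) ^ (n + 1) = (y + z) ^ n * (y + z) := pow_succ _ _
        _ ≤ (y ^ n + n * z * (y + z) ^ (n - 1)) * (y + z) := Nat.mul_le_mul_right _ ih
        _ = y ^ n * y + y ^ n * z + n * z * ((y + z) ^ (n - 1) * (y + z)) := by ring
        _ ≤ y ^ n * y + (y + z) ^ n * z + n * z * ((y + z) ^ (n - 1) * (y + z)) := by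
            gcongr
        _ = y ^ (n + 1) + (n + 1) * z * (y + z) ^ n := by rw [h1]; ring

theorem box_ineq (N N' e D d m : ℕ) (hN : 1 ≤ N) (hNN : N ≤ N') (hD : 1 ≤ D)
    (hd : d = N * e * (N' * D + 1) ^ (N - 1)) (hm : m = N' * (d * D)) :
    e ≤ m ∧ (m + 1) ^ N < (d + 1) ^ N' + (m - e + 1) ^ N := by
  have h0 : e ≤ d := by
    rw [hd]
    calc e = 1 * e * 1 := by ring
      _ ≤ N * e * (N' * D + 1) ^ (N - 1) := by
        gcongr
        exact Nat.one_le_pow _ _ (by omega)
  have h1 : d ≤ m := by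
    rw [hm]
    calc d = 1 * (d * 1) := by ring
      _ ≤ N' * (d * D) := by
        gcongr
        omega
  have hem : e ≤ m := h0.trans h1
  refine ⟨hem, ?_⟩
  have h2 := pow_le_pow_add (m + 1) (m - e + 1) N (by omega)
  have h3 : m + 1 - (m - e + 1) = e := by omega
  rw [h3] at h2
  have h4 : m + 1 ≤ (N' * D + 1) * (d + 1) := by
    rw [hm]
    nlinarith [Nat.zero_le (N' * D), Nat.zero_le d]
  have h5 : N * e * (m + 1) ^ (N - 1) ≤ d * (d + 1) ^ (N - 1) := by
    calc N * e * (m + 1) ^ (N - 1) ≤ N * e * ((N' * D + 1) * (d + 1)) ^ (N - 1) := by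
          gcongr
      _ = (N * e * (N' * D + 1) ^ (N - 1)) * (d + 1) ^ (N - 1) := by rw [mul_pow]; ring
      _ = d * (d + 1) ^ (N - 1) := by rw [← hd]
  have h6 : d * (d + 1) ^ (N - 1) < (d + 1) ^ N := by
    have h7 : (d + 1) ^ N = (d + 1) ^ (N - 1) * (d + 1) := by
      rw [← pow_succ]
      congr 1
      omega
    rw [h7, mul_comm d]
    exact Nat.mul_lt_mul_of_pos_left (Nat.lt_succ_self d) (Nat.pow_pos (Nat.succ_pos d))
  have h8 : (d + 1) ^ N ≤ (d + 1) ^ N' := Nat.pow_le_pow_right (Nat.succ_pos d) hNN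
  omega

/-- **Lemma B.** Let `τ` have at least as many elements as `σ`, `g ≠ 0` a polynomial in the
variables `σ`. There is a polynomial `Φ ≠ 0` in the variables `τ` which vanishes at all points `q`
with `q i = a i (u) / b i (u)`, `g (u) = 0`. -/
theorem exists_relation {σ τ : Type*} [Fintype σ] [Fintype τ] [DecidableEq σ] [DecidableEq τ]
    (hcard : Fintype.card σ ≤ Fintype.card τ) (a b : τ → MvPolynomial σ K) (g : MvPolynomial σ K)
    (hg : g ≠ 0) : ∃ Φ : MvPolynomial τ K, Φ ≠ 0 ∧
      ∀ (u : σ → K) (q : τ → K), eval u g = 0 → (∀ i, eval u (b i) ≠ 0) →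
        (∀ i, q i * eval u (b i) = eval u (a i)) → eval q Φ = 0 := by
  rcases Nat.eq_zero_or_pos (Fintype.card σ) with h0 | hN
  · haveI : IsEmpty σ := Fintype.card_eq_zero_iff.mp h0
    refine ⟨1, one_ne_zero, fun u q hu _ _ => ?_⟩
    exfalso
    apply hg
    rw [MvPolynomial.eq_C_of_isEmpty g] at hu ⊢
    rw [eval_C] at hu
    rw [hu, C_0]
  · obtain ⟨D, hD1, hDa, hDb⟩ : ∃ D : ℕ, 1 ≤ D ∧ (∀ i j, degreeOf j (a i) ≤ D) ∧
        ∀ i j, degreeOf j (b i) ≤ D := by
      refine ⟨1 + (∑ i, ∑ j, degreeOf j (a i)) + ∑ i, ∑ j, degreeOf j (b i), by omega, ?_, ?_⟩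
      · intro i j
        have h1 : degreeOf j (a i) ≤ ∑ j, degreeOf j (a i) :=
          Finset.single_le_sum (f := fun j => degreeOf j (a i)) (fun _ _ => Nat.zero_le _)
            (Finset.mem_univ j)
        have h2 : ∑ j, degreeOf j (a i) ≤ ∑ i, ∑ j, degreeOf j (a i) :=
          Finset.single_le_sum (f := fun i => ∑ j, degreeOf j (a i)) (fun _ _ => Nat.zero_le _)
            (Finset.mem_univ i)
        omega
      · intro i j
        have h1 : degreeOf j (b i) ≤ ∑ j, degreeOf j (b i) :=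
          Finset.single_le_sum (f := fun j => degreeOf j (b i)) (fun _ _ => Nat.zero_le _)
            (Finset.mem_univ j)
        have h2 : ∑ j, degreeOf j (b i) ≤ ∑ i, ∑ j, degreeOf j (b i) :=
          Finset.single_le_sum (f := fun i => ∑ j, degreeOf j (b i)) (fun _ _ => Nat.zero_le _)
            (Finset.mem_univ i)
        omega
    obtain ⟨e, he⟩ : ∃ e : ℕ, ∀ j, degreeOf j g ≤ e :=
      ⟨∑ j, degreeOf j g, fun j => Finset.single_le_sum (f := fun j => degreeOf j g)
        (fun _ _ => Nat.zero_le _) (Finset.mem_univ j)⟩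
    obtain ⟨d, hd⟩ : ∃ d : ℕ, d = Fintype.card σ * e *
      (Fintype.card τ * D + 1) ^ (Fintype.card σ - 1) := ⟨_, rfl⟩
    obtain ⟨m, hm⟩ : ∃ m : ℕ, m = Fintype.card τ * (d * D) := ⟨_, rfl⟩
    obtain ⟨hem, hlt⟩ := box_ineq _ _ e D d m hN hcard hD1 hd hm
    let L : (((τ → Fin (d + 1)) → K) × ((σ → Fin (m - e + 1)) → K)) →ₗ[K]
        ((σ → Fin (m + 1)) → K) :=
      (boxCoeff m).comp ((homog d a b).comp (LinearMap.fst K _ _) -
        (LinearMap.mulLeft K g).comp ((boxPoly (m - e)).comp (LinearMap.snd K _ _)))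
    have hfin : Module.finrank K ((σ → Fin (m + 1)) → K) <
        Module.finrank K (((τ → Fin (d + 1)) → K) × ((σ → Fin (m - e + 1)) → K)) := by
      rw [Module.finrank_prod, Module.finrank_fintype_fun_eq_card,
        Module.finrank_fintype_fun_eq_card, Module.finrank_fintype_fun_eq_card]
      simpa using hlt
    obtain ⟨⟨c, s⟩, hcs, hne⟩ : ∃ x, L x = 0 ∧ x ≠ 0 := by
      have hker : LinearMap.ker L ≠ ⊥ := LinearMap.ker_ne_bot_of_finrank_lt hfin
      obtain ⟨x, hx, hx0⟩ := Submodule.exists_mem_ne_zero_of_ne_bot hker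
      exact ⟨x, LinearMap.mem_ker.mp hx, hx0⟩
    have hL : homog d a b c - g * boxPoly (m - e) s = 0 := by
      apply eq_zero_of_boxCoeff m
      · intro j
        have h1 : degreeOf j (homog d a b c) ≤ m := by
          rw [hm]
          exact degreeOf_homog_le d D a b c j (fun i => hDa i j) fun i => hDb i j
        have h2 : degreeOf j (g * boxPoly (m - e) s) ≤ m := by
          refine (degreeOf_mul_le j _ _).trans ?_
          have h3 := he j
          have h4 := degreeOf_boxPoly_le (m - e) s j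
          omega
        exact (degreeOf_sub_le j _ _).trans (max_le h1 h2)
      · simpa [L] using hcs
    have hc : c ≠ 0 := by
      rintro rfl
      rw [map_zero, zero_sub, neg_eq_zero] at hL
      have h1 := (mul_eq_zero.mp hL).resolve_left hg
      have h2 := boxPoly_injective _ h1
      apply hne
      rw [h2]
      rfl
    refine ⟨boxPoly d c, fun h => hc (boxPoly_injective d h), fun u q hu hb hq => ?_⟩
    have h1 := eval_homog d a b c u q hq
    rw [sub_eq_zero.mp hL, map_mul, hu, zero_mul] at h1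
    have h2 : ∏ i, eval u (b i) ^ d ≠ 0 := Finset.prod_ne_zero_iff.mpr fun i _ =>
      pow_ne_zero _ (hb i)
    exact (mul_eq_zero.mp h1.symm).resolve_right h2

end

end Pool.Agent.QCG
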