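import Mathlib
import Pool.Agent.QCG.Count

set_option autoImplicit false

/-! # Rational functions of some of the coordinates

`RatOn σ D f`: on the set `D` of points `y : ρ → K` the function `f` is a quotient of two
polynomials in the coordinates `y x`, `x ∈ σ`, with a denominator without zeros on `D`. -/

namespace Pool.Agent.QCG

open MvPolynomial

section

variable {K : Type*} [Field K] {ρ : Type*} {σ : Set ρ} {D : Set (ρ → K)}

/-- The restriction of `y` to the coordinates in `σ`. -/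
def rs (σ : Set ρ) (y : ρ → K) : σ → K := fun x => y x

/-- On `D` the function `f` is a rational function of the coordinates in `σ`. -/
def RatOn (σ : Set ρ) (D : Set (ρ → K)) (f : (ρ → K) → K) : Prop :=
  ∃ a b : MvPolynomial σ K, ∀ y ∈ D, eval (rs σ y) b ≠ 0 ∧
    f y * eval (rs σ y) b = eval (rs σ y) a

theorem RatOn.const (c : K) : RatOn σ D (fun _ => c) :=
  ⟨C c, 1, fun y _ => by simp⟩

theorem RatOn.coord {x : ρ} (hx : x ∈ σ) : RatOn σ D (fun y => y x) :=
  ⟨X ⟨x, hx⟩, 1, fun y _ => by simp [rs]⟩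

theorem RatOn.congr {f g : (ρ → K) → K} (hf : RatOn σ D f) (h : ∀ y ∈ D, g y = f y) :
    RatOn σ D g := by
  obtain ⟨a, b, hab⟩ := hf
  refine ⟨a, b, fun y hy => ?_⟩
  rw [h y hy]
  exact hab y hy

theorem RatOn.mono {D' : Set (ρ → K)} {f : (ρ → K) → K} (hf : RatOn σ D' f) (h : D ⊆ D') :
    RatOn σ D f := by
  obtain ⟨a, b, hab⟩ := hf
  exact ⟨a, b, fun y hy => hab y (h hy)⟩

theorem RatOn.add {f g : (ρ → K) → K} (hf : RatOn σ D f) (hg : RatOn σ D g) :
    RatOn σ D (fun y => f y + g y) := by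
  obtain ⟨a, b, hab⟩ := hf
  obtain ⟨c, d, hcd⟩ := hg
  refine ⟨a * d + c * b, b * d, fun y hy => ?_⟩
  obtain ⟨h1, h2⟩ := hab y hy
  obtain ⟨h3, h4⟩ := hcd y hy
  simp only [map_mul, map_add]
  refine ⟨mul_ne_zero h1 h3, ?_⟩
  rw [← h2, ← h4]
  ring

theorem RatOn.mul {f g : (ρ → K) → K} (hf : RatOn σ D f) (hg : RatOn σ D g) :
    RatOn σ D (fun y => f y * g y) := by
  obtain ⟨a, b, hab⟩ := hf
  obtain ⟨c, d, hcd⟩ := hg
  refine ⟨a * c, b * d, fun y hy => ?_⟩
  obtain ⟨h1, h2⟩ := hab y hy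
  obtain ⟨h3, h4⟩ := hcd y hy
  simp only [map_mul]
  refine ⟨mul_ne_zero h1 h3, ?_⟩
  rw [← h2, ← h4]
  ring

theorem RatOn.neg {f : (ρ → K) → K} (hf : RatOn σ D f) : RatOn σ D (fun y => -f y) :=
  ((RatOn.const (-1)).mul hf).congr fun y _ => by ring

theorem RatOn.sub {f g : (ρ → K) → K} (hf : RatOn σ D f) (hg : RatOn σ D g) :
    RatOn σ D (fun y => f y - g y) :=
  (hf.add hg.neg).congr fun y _ => by ring

theorem RatOn.inv {f : (ρ → K) → K} (hf : RatOn σ D f) (h0 : ∀ y ∈ D, f y ≠ 0) :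
    RatOn σ D (fun y => (f y)⁻¹) := by
  obtain ⟨a, b, hab⟩ := hf
  refine ⟨b, a, fun y hy => ?_⟩
  obtain ⟨h1, h2⟩ := hab y hy
  have h3 := h0 y hy
  rw [← h2]
  refine ⟨mul_ne_zero h3 h1, ?_⟩
  rw [← mul_assoc, inv_mul_cancel₀ h3, one_mul]

theorem RatOn.div {f g : (ρ → K) → K} (hf : RatOn σ D f) (hg : RatOn σ D g)
    (h0 : ∀ y ∈ D, g y ≠ 0) : RatOn σ D (fun y => f y / g y) :=
  (hf.mul (hg.inv h0)).congr fun y _ => by rw [div_eq_mul_inv]

theorem RatOn.sum {ι : Type*} (s : Finset ι) {f : ι → (ρ → K) → K}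
    (hf : ∀ i ∈ s, RatOn σ D (f i)) : RatOn σ D (fun y => ∑ i ∈ s, f i y) := by
  classical
  induction s using Finset.induction_on with
  | empty => simpa using RatOn.const (0 : K)
  | insert i s hi ih =>
    have h1 := (hf i (Finset.mem_insert_self i s)).add
      (ih fun j hj => hf j (Finset.mem_insert_of_mem hj))
    exact h1.congr fun y _ => Finset.sum_insert hi

theorem RatOn.prod {ι : Type*} (s : Finset ι) {f : ι → (ρ → K) → K}
    (hf : ∀ i ∈ s, RatOn σ D (f i)) : RatOn σ D (fun y => ∏ i ∈ s, f i y) := by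
  classical
  induction s using Finset.induction_on with
  | empty => simpa using RatOn.const (1 : K)
  | insert i s hi ih =>
    have h1 := (hf i (Finset.mem_insert_self i s)).mul
      (ih fun j hj => hf j (Finset.mem_insert_of_mem hj))
    exact h1.congr fun y _ => Finset.prod_insert hi

theorem RatOn.pow {f : (ρ → K) → K} (hf : RatOn σ D f) (N : ℕ) :
    RatOn σ D (fun y => f y ^ N) :=
  (RatOn.prod (Finset.range N) (f := fun _ => f) fun _ _ => hf).congr fun y _ => by simp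

theorem RatOn.det {ι : Type*} [Fintype ι] [DecidableEq ι] {M : (ρ → K) → Matrix ι ι K}
    (hM : ∀ i j, RatOn σ D (fun y => M y i j)) : RatOn σ D (fun y => (M y).det) := by
  refine RatOn.congr (f := fun y => ∑ p : Equiv.Perm ι, ((Equiv.Perm.sign p : ℤ) : K) *
    ∏ i, M y (p i) i) ?_ fun y _ => Matrix.det_apply' _
  exact RatOn.sum _ fun p _ => (RatOn.const _).mul (RatOn.prod _ fun i _ => hM _ _)

/-- A family of polynomials with coefficients which are rational on `D`. -/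
def RatP (σ : Set ρ) (D : Set (ρ → K)) {ι : Type*} (F : (ρ → K) → MvPolynomial ι K) : Prop :=
  ∃ (P : MvPolynomial ι (MvPolynomial σ K)) (b : MvPolynomial σ K), ∀ y ∈ D,
    eval (rs σ y) b ≠ 0 ∧ C (eval (rs σ y) b) * F y = map (eval (rs σ y)) P

variable {ι : Type*}

theorem RatP.const {f : (ρ → K) → K} (hf : RatOn σ D f) :
    RatP σ D (fun y => (C (f y) : MvPolynomial ι K)) := by
  obtain ⟨a, b, hab⟩ := hf
  refine ⟨C a, b, fun y hy => ⟨(hab y hy).1, ?_⟩⟩
  rw [map_C, ← (hab y hy).2, ← C_mul, mul_comm]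

theorem RatP.X (i : ι) : RatP σ D (fun _ => (X i : MvPolynomial ι K)) :=
  ⟨MvPolynomial.X i, 1, fun y _ => by simp⟩

theorem RatP.congr {F G : (ρ → K) → MvPolynomial ι K} (hF : RatP σ D F)
    (h : ∀ y ∈ D, G y = F y) : RatP σ D G := by
  obtain ⟨a, b, hab⟩ := hF
  refine ⟨a, b, fun y hy => ?_⟩
  rw [h y hy]
  exact hab y hy

theorem RatP.add {F G : (ρ → K) → MvPolynomial ι K} (hF : RatP σ D F) (hG : RatP σ D G) :
    RatP σ D (fun y => F y + G y) := by
  obtain ⟨P, b, hP⟩ := hF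
  obtain ⟨Q, d, hQ⟩ := hG
  refine ⟨C d * P + C b * Q, b * d, fun y hy => ?_⟩
  obtain ⟨h1, h2⟩ := hP y hy
  obtain ⟨h3, h4⟩ := hQ y hy
  simp only [map_mul, map_add, map_C]
  refine ⟨mul_ne_zero h1 h3, ?_⟩
  rw [← h2, ← h4]
  ring

theorem RatP.mul {F G : (ρ → K) → MvPolynomial ι K} (hF : RatP σ D F) (hG : RatP σ D G) :
    RatP σ D (fun y => F y * G y) := by
  obtain ⟨P, b, hP⟩ := hF
  obtain ⟨Q, d, hQ⟩ := hG
  refine ⟨P * Q, b * d, fun y hy => ?_⟩
  obtain ⟨h1, h2⟩ := hP y hy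
  obtain ⟨h3, h4⟩ := hQ y hy
  simp only [map_mul]
  refine ⟨mul_ne_zero h1 h3, ?_⟩
  rw [← h2, ← h4]
  ring

theorem RatP.neg {F : (ρ → K) → MvPolynomial ι K} (hF : RatP σ D F) :
    RatP σ D (fun y => -F y) :=
  ((RatP.const (RatOn.const (-1))).mul hF).congr fun y _ => by simp

theorem RatP.sub {F G : (ρ → K) → MvPolynomial ι K} (hF : RatP σ D F) (hG : RatP σ D G) :
    RatP σ D (fun y => F y - G y) :=
  (hF.add hG.neg).congr fun y _ => by ring

theorem RatP.sum {κ : Type*} (s : Finset κ) {F : κ → (ρ → K) → MvPolynomial ι K}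
    (hF : ∀ i ∈ s, RatP σ D (F i)) : RatP σ D (fun y => ∑ i ∈ s, F i y) := by
  classical
  induction s using Finset.induction_on with
  | empty =>
    refine (RatP.const (RatOn.const (0 : K))).congr fun y _ => ?_
    simp
  | insert i s hi ih =>
    have h1 := (hF i (Finset.mem_insert_self i s)).add
      (ih fun j hj => hF j (Finset.mem_insert_of_mem hj))
    exact h1.congr fun y _ => Finset.sum_insert hi

theorem RatP.prod {κ : Type*} (s : Finset κ) {F : κ → (ρ → K) → MvPolynomial ι K}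
    (hF : ∀ i ∈ s, RatP σ D (F i)) : RatP σ D (fun y => ∏ i ∈ s, F i y) := by
  classical
  induction s using Finset.induction_on with
  | empty =>
    refine (RatP.const (RatOn.const (1 : K))).congr fun y _ => ?_
    simp
  | insert i s hi ih =>
    have h1 := (hF i (Finset.mem_insert_self i s)).mul
      (ih fun j hj => hF j (Finset.mem_insert_of_mem hj))
    exact h1.congr fun y _ => Finset.prod_insert hi

theorem RatP.pderiv (i : ι) {F : (ρ → K) → MvPolynomial ι K} (hF : RatP σ D F) :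
    RatP σ D (fun y => MvPolynomial.pderiv i (F y)) := by
  obtain ⟨P, b, hP⟩ := hF
  refine ⟨MvPolynomial.pderiv i P, b, fun y hy => ?_⟩
  obtain ⟨h1, h2⟩ := hP y hy
  refine ⟨h1, ?_⟩
  rw [← pderiv_map, ← h2, pderiv_C_mul]

theorem RatOn.eval {F : (ρ → K) → MvPolynomial ι K} (hF : RatP σ D F) {w : (ρ → K) → ι → K}
    (hw : ∀ i, RatOn σ D (fun y => w y i)) : RatOn σ D (fun y => eval (w y) (F y)) := by
  have key : ∀ P : MvPolynomial ι (MvPolynomial σ K),
      RatOn σ D (fun y => MvPolynomial.eval (w y) (map (MvPolynomial.eval (rs σ y)) P)) := by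
    intro P
    induction P using MvPolynomial.induction_on with
    | C a => exact ⟨a, 1, fun y _ => by simp⟩
    | add p q hp hq => exact (hp.add hq).congr fun y _ => by simp
    | mul_X p i hp => exact (hp.mul (hw i)).congr fun y _ => by simp
  obtain ⟨P, b, hP⟩ := hF
  have hb : RatOn σ D (fun y => MvPolynomial.eval (rs σ y) b) := ⟨b, 1, fun y _ => by simp⟩
  refine ((key P).div hb fun y hy => (hP y hy).1).congr fun y hy => ?_
  obtain ⟨h1, h2⟩ := hP y hy
  rw [← h2, map_mul, eval_C, mul_div_cancel_left₀ _ h1]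

end

section

variable {K : Type*} [Field K] {τ ε : Type*}

/-- The free coordinates: all but the solved ones `inl (s e)`. -/
def Fr (s : ε → τ) : Set (τ ⊕ ε) := {x | ∀ e, x ≠ Sum.inl (s e)}

theorem inr_mem_Fr (s : ε → τ) (e : ε) : (Sum.inr e : τ ⊕ ε) ∈ Fr s := fun _ => by simp

theorem inl_mem_Fr {s : ε → τ} {i : τ} (h : ∀ e, i ≠ s e) : (Sum.inl i : τ ⊕ ε) ∈ Fr s :=
  fun e h1 => h e (Sum.inl_injective h1)

theorem card_Fr [Fintype τ] [Fintype ε] (s : ε → τ) (hs : Function.Injective s)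
    [Fintype (Fr s)] : Fintype.card (Fr s) ≤ Fintype.card τ := by
  classical
  have h1 : Fr s = (Set.range (fun e => (Sum.inl (s e) : τ ⊕ ε)))ᶜ := by
    ext x
    simp only [Fr, Set.mem_ofPred_eq, Set.mem_compl_iff, Set.mem_range, not_exists]
    exact ⟨fun h e he => h e he.symm, fun h e he => h e he.symm⟩
  have h2 : Fintype.card (Fr s) = Fintype.card
      ((Set.range (fun e => (Sum.inl (s e) : τ ⊕ ε)))ᶜ : Set (τ ⊕ ε)) := by
    rw [← Nat.card_eq_fintype_card, ← Nat.card_eq_fintype_card, h1]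
  rw [h2, Fintype.card_compl_set, Set.card_range_of_injective, Fintype.card_sum]
  · omega
  · exact Sum.inl_injective.comp hs

/-- **The elimination lemma.** -/
theorem exists_rel [Fintype τ] [Fintype ε] (s : ε → τ) (hs : Function.Injective s)
    (D D' : Set (τ ⊕ ε → K)) (hsol : ∀ e, RatOn (Fr s) D (fun y => y (Sum.inl (s e))))
    (G : (τ ⊕ ε → K) → K) (hG : RatOn (Fr s) D' G) (y₀ : τ ⊕ ε → K) (hy₀ : y₀ ∈ D')
    (hG₀ : G y₀ ≠ 0) (hD : ∀ y ∈ D, y ∈ D' ∧ G y = 0) :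
    ∃ Φ : MvPolynomial τ K, Φ ≠ 0 ∧ ∀ y ∈ D, eval (fun i => y (Sum.inl i)) Φ = 0 := by
  classical
  have hall : ∀ i : τ, RatOn (Fr s) D (fun y => y (Sum.inl i)) := by
    intro i
    by_cases h : ∃ e, i = s e
    · obtain ⟨e, rfl⟩ := h
      exact hsol e
    · push Not at h
      exact RatOn.coord (inl_mem_Fr h)
  choose a b hab using hall
  obtain ⟨g, d, hg⟩ := hG
  have hg0 : g ≠ 0 := by
    rintro rfl
    obtain ⟨h1, h2⟩ := hg y₀ hy₀
    rw [map_zero] at h2
    exact mul_ne_zero hG₀ h1 h2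
  obtain ⟨Φ, hΦ, h⟩ := exists_relation (card_Fr s hs) a b g hg0
  refine ⟨Φ, hΦ, fun y hy => ?_⟩
  refine h (rs (Fr s) y) _ ?_ (fun i => (hab i y hy).1) fun i => (hab i y hy).2
  obtain ⟨h1, h2⟩ := hD y hy
  rw [← (hg y h1).2, h2, zero_mul]

/-- The case in which the bad set is given by `G = 0` in `D`. -/
theorem exists_rel' [Fintype τ] [Fintype ε] (s : ε → τ) (hs : Function.Injective s)
    (D : Set (τ ⊕ ε → K)) (hsol : ∀ e, RatOn (Fr s) D (fun y => y (Sum.inl (s e))))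
    (G : (τ ⊕ ε → K) → K) (hG : RatOn (Fr s) D G) (y₀ : τ ⊕ ε → K) (hy₀ : y₀ ∈ D)
    (hG₀ : G y₀ ≠ 0) :
    ∃ Φ : MvPolynomial τ K, Φ ≠ 0 ∧ ∀ y ∈ D, G y = 0 → eval (fun i => y (Sum.inl i)) Φ = 0 := by
  obtain ⟨Φ, hΦ, h⟩ := exists_rel s hs {y | y ∈ D ∧ G y = 0} D
    (fun e => (hsol e).mono fun y hy => hy.1) G hG y₀ hy₀ hG₀ (fun y hy => hy)
  exact ⟨Φ, hΦ, fun y hy hG => h y ⟨hy, hG⟩⟩

end

end Pool.Agent.QCG
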