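import Mathlib
import Pool.Agent.QCG.RatOn
import Pool.Agent.QC.Defs

set_option autoImplicit false

/-! # Thin sets and quadratic polynomials -/

namespace Pool.Agent.QCG

open MvPolynomial Pool.Agent.QC

section

variable {K : Type*} [Field K] {τ : Type*}

/-- A set of points which is contained in the zero set of a nonzero polynomial. -/
def Thin (B : Set (τ → K)) : Prop :=
  ∃ Φ : MvPolynomial τ K, Φ ≠ 0 ∧ ∀ q ∈ B, eval q Φ = 0

theorem Thin.mono {B B' : Set (τ → K)} (h : Thin B') (hB : B ⊆ B') : Thin B := by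
  obtain ⟨Φ, h1, h2⟩ := h
  exact ⟨Φ, h1, fun q hq => h2 q (hB hq)⟩

theorem Thin.union {B B' : Set (τ → K)} (h : Thin B) (h' : Thin B') : Thin (B ∪ B') := by
  obtain ⟨Φ, h1, h2⟩ := h
  obtain ⟨Ψ, h3, h4⟩ := h'
  refine ⟨Φ * Ψ, mul_ne_zero h1 h3, fun q hq => ?_⟩
  rw [map_mul]
  rcases hq with hq | hq
  · rw [h2 q hq, zero_mul]
  · rw [h4 q hq, mul_zero]

theorem Thin.iUnion {ι : Type*} [Finite ι] {B : ι → Set (τ → K)} (h : ∀ i, Thin (B i)) :
    Thin (⋃ i, B i) := by
  classical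
  have := Fintype.ofFinite ι
  choose Φ h1 h2 using h
  refine ⟨∏ i, Φ i, Finset.prod_ne_zero_iff.mpr fun i _ => h1 i, fun q hq => ?_⟩
  obtain ⟨i, hi⟩ := Set.mem_iUnion.mp hq
  rw [map_prod]
  exact Finset.prod_eq_zero (Finset.mem_univ i) (h2 i q hi)

/-- A family of cases: `q` is bad only if it is in one of finitely many thin sets. -/
theorem Thin.of_cases {ι : Type*} [Finite ι] {B : Set (τ → K)} {B' : ι → Set (τ → K)}
    (h : ∀ i, Thin (B' i)) (hB : ∀ q ∈ B, ∃ i, q ∈ B' i) : Thin B :=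
  (Thin.iUnion h).mono fun q hq => Set.mem_iUnion.mpr (hB q hq)

end

section

variable {N : ℕ}

/-- The value of a quadratic polynomial. -/
def qv (p : QPc N) (x : Fin N → ℂ) : ℂ :=
  (∑ i, ∑ j, p.1 i j * x i * x j) + (∑ i, p.2.1 i * x i) + p.2.2

/-- The gradient of a quadratic polynomial. -/
def qg (p : QPc N) (x : Fin N → ℂ) (i : Fin N) : ℂ :=
  (∑ j, (p.1 i j + p.1 j i) * x j) + p.2.1 i

theorem eval_qpol (p : QPc N) (x : Fin N → ℂ) : eval x (qpol p) = qv p x := by
  simp [qpol, qv, map_sum]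

theorem pderiv_qpol (p : QPc N) (i : Fin N) :
    pderiv i (qpol p) = (∑ j, C (p.1 i j + p.1 j i) * X j) + C (p.2.1 i) := by
  classical
  have h1 : ∀ a b : Fin N, pderiv i (C (p.1 a b) * X a * X b) =
      (if a = i then C (p.1 a b) * X b else 0) + (if b = i then C (p.1 a b) * X a else 0) := by
    intro a b
    rw [mul_assoc, pderiv_C_mul, Derivation.leibniz, pderiv_X, pderiv_X, Pi.single_apply,
      Pi.single_apply, smul_eq_mul, smul_eq_mul]
    by_cases ha : a = i
    · by_cases hb : b = i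
      · rw [if_pos ha, if_pos hb, if_pos ha, if_pos hb]
        ring
      · rw [if_pos ha, if_neg hb, if_pos ha, if_neg hb]
        ring
    · by_cases hb : b = i
      · rw [if_neg ha, if_pos hb, if_neg ha, if_pos hb]
        ring
      · rw [if_neg ha, if_neg hb, if_neg ha, if_neg hb]
        ring
  have h2 : ∀ a : Fin N, pderiv i (C (p.2.1 a) * X a : Pol N) =
      if a = i then C (p.2.1 a) else 0 := by
    intro a
    rw [pderiv_C_mul, pderiv_X, Pi.single_apply]
    by_cases ha : a = i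
    · rw [if_pos ha, if_pos ha, mul_one]
    · rw [if_neg ha, if_neg ha, mul_zero]
  rw [qpol, map_add, map_add, map_sum, map_sum, pderiv_C, add_zero]
  simp only [map_sum, h1, h2, Finset.sum_add_distrib, Finset.sum_ite_eq', Finset.mem_univ,
    if_true]
  congr 1
  rw [Finset.sum_comm]
  simp only [Finset.sum_ite_eq', Finset.mem_univ, if_true]
  rw [← Finset.sum_add_distrib]
  refine Finset.sum_congr rfl fun j _ => ?_
  rw [C_add]
  ring

theorem eval_pderiv_qpol (p : QPc N) (x : Fin N → ℂ) (i : Fin N) :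
    eval x (pderiv i (qpol p)) = qg p x i := by
  rw [pderiv_qpol]
  simp [qg, map_sum]

theorem pderiv_pderiv_qpol (p : QPc N) (i j : Fin N) :
    pderiv i (pderiv j (qpol p)) = C (p.1 j i + p.1 i j) := by
  classical
  rw [pderiv_qpol, map_add, map_sum, pderiv_C, add_zero]
  rw [Finset.sum_eq_single i]
  · rw [pderiv_C_mul, pderiv_X_self, mul_one]
  · intro b _ hb
    rw [pderiv_C_mul, pderiv_X_of_ne hb, mul_zero]
  · intro h
    exact absurd (Finset.mem_univ i) h

theorem sum_swap (A : Fin N → Fin N → ℂ) (u v : Fin N → ℂ) :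
    ∑ i, ∑ j, A j i * u j * v i = ∑ i, ∑ j, A i j * v j * u i := by
  rw [Finset.sum_comm]
  refine Finset.sum_congr rfl fun i _ => Finset.sum_congr rfl fun j _ => ?_
  ring

/-- The trapezoid rule is exact for quadratic polynomials. -/
theorem trapezoid (p : QPc N) (x y : Fin N → ℂ) :
    2 * (qv p y - qv p x) = ∑ i, (qg p x i + qg p y i) * (y i - x i) := by
  have h1 : ∑ i, (qg p x i + qg p y i) * (y i - x i) =
      (∑ i, ∑ j, p.1 i j * (x j + y j) * (y i - x i)) +
      (∑ i, ∑ j, p.1 j i * (x j + y j) * (y i - x i)) + ∑ i, 2 * (p.2.1 i * (y i - x i)) := by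
    rw [← Finset.sum_add_distrib, ← Finset.sum_add_distrib]
    refine Finset.sum_congr rfl fun i _ => ?_
    have h2 : qg p x i + qg p y i = (∑ j, p.1 i j * (x j + y j)) +
        (∑ j, p.1 j i * (x j + y j)) + 2 * p.2.1 i := by
      simp only [qg]
      rw [← Finset.sum_add_distrib]
      have h3 : (∑ j, (p.1 i j + p.1 j i) * x j) + (∑ j, (p.1 i j + p.1 j i) * y j) =
          ∑ j, (p.1 i j * (x j + y j) + p.1 j i * (x j + y j)) := by
        rw [← Finset.sum_add_distrib]
        refine Finset.sum_congr rfl fun j _ => ?_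
        ring
      rw [← h3]
      ring
    rw [h2, add_mul, add_mul, Finset.sum_mul, Finset.sum_mul]
    ring
  rw [h1, sum_swap p.1 (fun j => x j + y j) (fun i => y i - x i), ← Finset.sum_add_distrib,
    ← Finset.sum_add_distrib]
  have h4 : ∀ i, (∑ j, p.1 i j * (x j + y j) * (y i - x i)) +
      (∑ j, p.1 i j * (y j - x j) * (x i + y i)) + 2 * (p.2.1 i * (y i - x i)) =
      2 * ((∑ j, p.1 i j * y i * y j) + p.2.1 i * y i) -
      2 * ((∑ j, p.1 i j * x i * x j) + p.2.1 i * x i) := by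
    intro i
    have h5 : (∑ j, p.1 i j * (x j + y j) * (y i - x i)) +
        (∑ j, p.1 i j * (y j - x j) * (x i + y i)) =
        2 * (∑ j, p.1 i j * y i * y j) - 2 * ∑ j, p.1 i j * x i * x j := by
      rw [← Finset.sum_add_distrib, Finset.mul_sum, Finset.mul_sum, ← Finset.sum_sub_distrib]
      refine Finset.sum_congr rfl fun j _ => ?_
      ring
    rw [h5]
    ring
  rw [Finset.sum_congr rfl fun i _ => h4 i, Finset.sum_sub_distrib, ← Finset.mul_sum,
    ← Finset.mul_sum, Finset.sum_add_distrib, Finset.sum_add_distrib]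
  simp only [qv]
  ring

end

/-! ## Rational quadratic polynomials -/

section

variable {N : ℕ} {ρ : Type*} {σ : Set ρ} {D : Set (ρ → ℂ)}

theorem RatOn.qv {p : (ρ → ℂ) → QPc N} {x : (ρ → ℂ) → Fin N → ℂ}
    (hA : ∀ i j, RatOn σ D (fun y => (p y).1 i j)) (hb : ∀ i, RatOn σ D (fun y => (p y).2.1 i))
    (hc : RatOn σ D (fun y => (p y).2.2)) (hx : ∀ i, RatOn σ D (fun y => x y i)) :
    RatOn σ D (fun y => QCG.qv (p y) (x y)) :=
  ((RatOn.sum _ fun i _ => RatOn.sum _ fun j _ => ((hA i j).mul (hx i)).mul (hx j)).add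
    (RatOn.sum _ fun i _ => (hb i).mul (hx i))).add hc

theorem RatOn.qg {p : (ρ → ℂ) → QPc N} {x : (ρ → ℂ) → Fin N → ℂ} (i : Fin N)
    (hA : ∀ j, RatOn σ D (fun y => (p y).1 i j)) (hA' : ∀ j, RatOn σ D (fun y => (p y).1 j i))
    (hb : RatOn σ D (fun y => (p y).2.1 i)) (hx : ∀ i, RatOn σ D (fun y => x y i)) :
    RatOn σ D (fun y => QCG.qg (p y) (x y) i) :=
  (RatOn.sum _ fun j _ => ((hA j).add (hA' j)).mul (hx j)).add hb

theorem RatP.qpol {p : (ρ → ℂ) → QPc N}
    (hA : ∀ i j, RatOn σ D (fun y => (p y).1 i j)) (hb : ∀ i, RatOn σ D (fun y => (p y).2.1 i))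
    (hc : RatOn σ D (fun y => (p y).2.2)) : RatP σ D (fun y => QC.qpol (p y)) :=
  ((RatP.sum _ fun i _ => RatP.sum _ fun j _ =>
    ((RatP.const (hA i j)).mul (RatP.X i)).mul (RatP.X j)).add
    (RatP.sum _ fun i _ => (RatP.const (hb i)).mul (RatP.X i))).add (RatP.const hc)

end

end Pool.Agent.QCG
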