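import Mathlib
import Pool.Agent.QCG.Thin

set_option autoImplicit false

/-! # Charts: the abstract form

`P_0` is a quadratic polynomial in `n + 1` variables, the other data are the coordinates `r`; the
critical points are given by `P_0 (w) + t = V (w)`, `d_i P_0 (w) = G_i (w)`. -/

namespace Pool.Agent.QCG

open MvPolynomial Pool.Agent.QC

section solve

variable {N : ℕ} {ρ : Type*} {σ : Set ρ} {D : Set (ρ → ℂ)}

theorem solve_col {A : (ρ → ℂ) → Fin N → Fin N → ℂ} {v γ : (ρ → ℂ) → Fin N → ℂ} (j : Fin N)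
    (I : Set (Fin N)) (hfree : ∀ k l, (l ≠ j ∨ k ∉ I) → RatOn σ D (fun y => A y k l))
    (hv : ∀ k, RatOn σ D (fun y => v y k)) (hγ : ∀ i ∈ I, RatOn σ D (fun y => γ y i))
    (hvj : ∀ y ∈ D, v y j ≠ 0)
    (heq : ∀ y ∈ D, ∀ i ∈ I, ∑ k, (A y i k + A y k i) * v y k = γ y i) :
    ∀ k l, RatOn σ D (fun y => A y k l) := by
  have hsplit : ∀ y ∈ D, ∀ i ∈ I, (A y i j + A y j i) * v y j +
      ∑ k ∈ Finset.univ.erase j, (A y i k + A y k i) * v y k = γ y i := by
    intro y hy i hi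
    rw [← heq y hy i hi]
    exact Finset.add_sum_erase Finset.univ (fun k => (A y i k + A y k i) * v y k)
      (Finset.mem_univ j)
  have h1 : ∀ i ∈ I, i ≠ j → RatOn σ D (fun y => A y i j) := by
    intro i hi hij
    have hS : RatOn σ D (fun y => ∑ k ∈ Finset.univ.erase j, (A y i k + A y k i) * v y k) := by
      refine RatOn.sum _ fun k hk => ?_
      have hk' : k ≠ j := Finset.ne_of_mem_erase hk
      exact ((hfree i k (Or.inl hk')).add (hfree k i (Or.inl hij))).mul (hv k)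
    refine (RatOn.sub (RatOn.div ((hγ i hi).sub hS) (hv j) hvj)
      (hfree j i (Or.inl hij))).congr fun y hy => ?_
    have h2 := hsplit y hy i hi
    have h3 := hvj y hy
    rw [← h2]
    field_simp
    ring
  intro k l
  by_cases hl : l = j
  · by_cases hk : k ∈ I
    · rw [hl]
      by_cases hkj : k = j
      · rw [hkj] at hk ⊢
        have hS : RatOn σ D
            (fun y => ∑ k ∈ Finset.univ.erase j, (A y j k + A y k j) * v y k) := by
          refine RatOn.sum _ fun k hk => ?_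
          have hk' : k ≠ j := Finset.ne_of_mem_erase hk
          refine ((hfree j k (Or.inl hk')).add ?_).mul (hv k)
          by_cases hkI : k ∈ I
          · exact h1 k hkI hk'
          · exact hfree k j (Or.inr hkI)
        refine (RatOn.div ((hγ j hk).sub hS) ((RatOn.const 2).mul (hv j)) fun y hy =>
          mul_ne_zero two_ne_zero (hvj y hy)).congr fun y hy => ?_
        have h2 := hsplit y hy j hk
        have h3 := hvj y hy
        rw [← h2]
        field_simp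
        ring
      · exact h1 k hk hkj
    · exact hfree k l (Or.inr hk)
  · exact hfree k l (Or.inl hl)

/-- The linear coefficient from the gradient. -/
theorem solve_b {p : (ρ → ℂ) → QPc N} {x : (ρ → ℂ) → Fin N → ℂ} {g : (ρ → ℂ) → ℂ} (i : Fin N)
    (hA : ∀ k l, RatOn σ D (fun y => (p y).1 k l)) (hx : ∀ k, RatOn σ D (fun y => x y k))
    (hg : RatOn σ D g) (heq : ∀ y ∈ D, qg (p y) (x y) i = g y) :
    RatOn σ D (fun y => (p y).2.1 i) := by
  refine (hg.sub (RatOn.sum Finset.univ fun k _ =>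
    ((hA i k).add (hA k i)).mul (hx k))).congr fun y hy => ?_
  rw [← heq y hy, qg]
  ring

/-- The constant coefficient from the value. -/
theorem solve_c {p : (ρ → ℂ) → QPc N} {x : (ρ → ℂ) → Fin N → ℂ} {g : (ρ → ℂ) → ℂ}
    (hA : ∀ k l, RatOn σ D (fun y => (p y).1 k l)) (hb : ∀ k, RatOn σ D (fun y => (p y).2.1 k))
    (hx : ∀ k, RatOn σ D (fun y => x y k))
    (hg : RatOn σ D g) (heq : ∀ y ∈ D, qv (p y) (x y) = g y) :
    RatOn σ D (fun y => (p y).2.2) := by
  refine (hg.sub ((RatOn.sum Finset.univ fun i _ => RatOn.sum Finset.univ fun j _ =>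
    ((hA i j).mul (hx i)).mul (hx j)).add
    (RatOn.sum Finset.univ fun i _ => (hb i).mul (hx i)))).congr fun y hy => ?_
  rw [← heq y hy, qv]
  ring

theorem qg_sub (p : QPc N) (x y : Fin N → ℂ) (i : Fin N) :
    ∑ k, (p.1 i k + p.1 k i) * (y k - x k) = qg p y i - qg p x i := by
  simp only [qg, mul_sub, Finset.sum_sub_distrib]
  ring

end solve

/-- The index type of the coefficients of a quadratic polynomial. -/
abbrev I0 (N : ℕ) := (Fin N × Fin N) ⊕ (Fin N ⊕ Unit)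

/-- The quadratic polynomial with given coefficients. -/
def toQ {N : ℕ} (z : I0 N → ℂ) : QPc N :=
  (fun i j => z (Sum.inl (i, j)), fun i => z (Sum.inr (Sum.inl i)), z (Sum.inr (Sum.inr ())))

/-- The coefficients of a quadratic polynomial. -/
def ofQ {N : ℕ} (p : QPc N) : I0 N → ℂ :=
  Sum.elim (fun x => p.1 x.1 x.2) (Sum.elim p.2.1 fun _ => p.2.2)

@[simp]
theorem toQ_ofQ {N : ℕ} (p : QPc N) : toQ (ofQ p) = p := rfl

/-- The other data of a critical point problem. -/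
structure HD (n : ℕ) (κ : Type) where
  /-- the domain -/
  dom : (κ → ℂ) → (Fin (n + 1) → ℂ) → Prop
  /-- the value -/
  V : (κ → ℂ) → (Fin (n + 1) → ℂ) → ℂ
  /-- the gradient -/
  G : (κ → ℂ) → (Fin (n + 1) → ℂ) → Fin (n + 1) → ℂ
  /-- the value is rational -/
  ratV : ∀ {ρ : Type} {σ : Set ρ} {D : Set (ρ → ℂ)} {r : (ρ → ℂ) → κ → ℂ}
    {x : (ρ → ℂ) → Fin (n + 1) → ℂ}, (∀ k, RatOn σ D (fun y => r y k)) →
    (∀ i, RatOn σ D (fun y => x y i)) → (∀ y ∈ D, dom (r y) (x y)) →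
    RatOn σ D (fun y => V (r y) (x y))
  /-- the gradient is rational -/
  ratG : ∀ {ρ : Type} {σ : Set ρ} {D : Set (ρ → ℂ)} {r : (ρ → ℂ) → κ → ℂ}
    {x : (ρ → ℂ) → Fin (n + 1) → ℂ}, (∀ k, RatOn σ D (fun y => r y k)) →
    (∀ i, RatOn σ D (fun y => x y i)) → (∀ y ∈ D, dom (r y) (x y)) →
    ∀ i, RatOn σ D (fun y => G (r y) (x y) i)

section defs

variable {n : ℕ} {κ : Type} (H : HD n κ)

/-- Critical points of the last coordinate. -/
def CritAt (p : QPc (n + 1)) (r : κ → ℂ) (t : ℂ) (w : Fin (n + 1) → ℂ) : Prop :=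
  H.dom r w ∧ qv p w + t = H.V r w ∧ ∀ i : Fin n, qg p w i.castSucc = H.G r w i.castSucc

/-- Singular points. -/
def SingAt (p : QPc (n + 1)) (r : κ → ℂ) (t : ℂ) (w : Fin (n + 1) → ℂ) : Prop :=
  H.dom r w ∧ qv p w + t = H.V r w ∧ ∀ i : Fin (n + 1), qg p w i = H.G r w i

theorem SingAt.crit {p : QPc (n + 1)} {r : κ → ℂ} {t : ℂ} {w : Fin (n + 1) → ℂ}
    (h : SingAt H p r t w) : CritAt H p r t w :=
  ⟨h.1, h.2.1, fun i => h.2.2 i.castSucc⟩

/-- The defect of the trapezoid rule. -/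
noncomputable def EE (r : κ → ℂ) (a b : Fin (n + 1) → ℂ) : ℂ :=
  2 * (H.V r b - H.V r a) - ∑ i, (H.G r a i + H.G r b i) * (b i - a i)

theorem EE_eq_zero {p : QPc (n + 1)} {r : κ → ℂ} {t : ℂ} {a b : Fin (n + 1) → ℂ}
    (ha : CritAt H p r t a) (hb : CritAt H p r t b)
    (hn : a (Fin.last n) = b (Fin.last n) ∨ (qg p a (Fin.last n) = H.G r a (Fin.last n) ∧
      qg p b (Fin.last n) = H.G r b (Fin.last n))) : EE H r a b = 0 := by
  have h1 := trapezoid p a b
  have h2 : ∑ i, (qg p a i + qg p b i) * (b i - a i) =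
      ∑ i, (H.G r a i + H.G r b i) * (b i - a i) := by
    refine Finset.sum_congr rfl fun i _ => ?_
    induction i using Fin.lastCases with
    | last =>
      rcases hn with hn | ⟨h3, h4⟩
      · rw [hn, sub_self, mul_zero, mul_zero]
      · rw [h3, h4]
    | cast i => rw [ha.2.2 i, hb.2.2 i]
  rw [EE, ← h2, ← h1, ← ha.2.1, ← hb.2.1]
  ring

theorem ratE {ρ : Type} {σ : Set ρ} {D : Set (ρ → ℂ)} {r : (ρ → ℂ) → κ → ℂ}
    {a b : (ρ → ℂ) → Fin (n + 1) → ℂ} (hr : ∀ k, RatOn σ D (fun y => r y k))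
    (ha : ∀ i, RatOn σ D (fun y => a y i)) (hb : ∀ i, RatOn σ D (fun y => b y i))
    (hda : ∀ y ∈ D, H.dom (r y) (a y)) (hdb : ∀ y ∈ D, H.dom (r y) (b y)) :
    RatOn σ D (fun y => EE H (r y) (a y) (b y)) :=
  ((RatOn.const 2).mul ((H.ratV hr hb hdb).sub (H.ratV hr ha hda))).sub
    (RatOn.sum _ fun i _ => ((H.ratG hr ha hda i).add (H.ratG hr hb hdb i)).mul
      ((hb i).sub (ha i)))

/-- Rational functions of `P_0`, the other data, `t` and a point. -/
def RF (Gf : QPc (n + 1) → (κ → ℂ) → ℂ → (Fin (n + 1) → ℂ) → ℂ) : Prop :=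
  ∀ {ρ : Type} {σ : Set ρ} {D : Set (ρ → ℂ)} {p : (ρ → ℂ) → QPc (n + 1)}
    {r : (ρ → ℂ) → κ → ℂ} {t : (ρ → ℂ) → ℂ} {x : (ρ → ℂ) → Fin (n + 1) → ℂ},
    (∀ i j, RatOn σ D (fun y => (p y).1 i j)) → (∀ i, RatOn σ D (fun y => (p y).2.1 i)) →
    RatOn σ D (fun y => (p y).2.2) → (∀ k, RatOn σ D (fun y => r y k)) → RatOn σ D t →
    (∀ i, RatOn σ D (fun y => x y i)) → (∀ y ∈ D, H.dom (r y) (x y)) →
    RatOn σ D (fun y => Gf (p y) (r y) (t y) (x y))

end defs

end Pool.Agent.QCG
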