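import Mathlib
import Pool.Agent.QCG.Charts

set_option autoImplicit false

/-! # Charts for one point: nondegeneracy at critical and at singular points -/

namespace Pool.Agent.QCG

open MvPolynomial Pool.Agent.QC

section gen

variable {n : ℕ} {κ : Type} {ε : Type}

/-- `P_0` of a point. -/
def pz (z : I0 (n + 1) ⊕ κ → ℂ) : QPc (n + 1) := toQ fun i => z (Sum.inl i)

/-- The other data of a point. -/
def rz (z : I0 (n + 1) ⊕ κ → ℂ) : κ → ℂ := fun k => z (Sum.inr k)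

/-- `P_0` of a point with extra coordinates. -/
def Py (y : (I0 (n + 1) ⊕ κ) ⊕ ε → ℂ) : QPc (n + 1) := toQ fun i => y (Sum.inl (Sum.inl i))

/-- The other data of a point with extra coordinates. -/
def Ry (y : (I0 (n + 1) ⊕ κ) ⊕ ε → ℂ) : κ → ℂ := fun k => y (Sum.inl (Sum.inr k))

/-- The free coordinates for `s`. -/
abbrev F0 (κ : Type) (s : ε → I0 (n + 1)) : Set ((I0 (n + 1) ⊕ κ) ⊕ ε) :=
  Fr fun e => (Sum.inl (s e) : I0 (n + 1) ⊕ κ)

variable {s : ε → I0 (n + 1)} {D : Set ((I0 (n + 1) ⊕ κ) ⊕ ε → ℂ)}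

theorem free_p {x : I0 (n + 1)} (h : ∀ e, x ≠ s e) :
    RatOn (F0 κ s) D (fun y => y (Sum.inl (Sum.inl x))) :=
  RatOn.coord (inl_mem_Fr fun e h1 => h e (Sum.inl_injective h1))

theorem free_r (k : κ) : RatOn (F0 κ s) D (fun y => Ry y k) := by
  refine RatOn.coord (x := Sum.inl (Sum.inr k)) (inl_mem_Fr fun e h1 => ?_)
  exact Sum.inr_ne_inl h1

theorem free_e (e : ε) : RatOn (F0 κ s) D (fun y => y (Sum.inr e)) :=
  RatOn.coord (inr_mem_Fr _ e)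

/-- The form of the elimination lemma for charts. -/
theorem chart_thin [Fintype κ] [Fintype ε] (hs : Function.Injective s)
    {D' : Set ((I0 (n + 1) ⊕ κ) ⊕ ε → ℂ)}
    (hA : ∀ i j, RatOn (F0 κ s) D (fun y => (Py y).1 i j))
    (hb : ∀ i, RatOn (F0 κ s) D (fun y => (Py y).2.1 i))
    (hc : RatOn (F0 κ s) D (fun y => (Py y).2.2))
    {G : ((I0 (n + 1) ⊕ κ) ⊕ ε → ℂ) → ℂ} (hG : RatOn (F0 κ s) D' G)
    (y₀ : (I0 (n + 1) ⊕ κ) ⊕ ε → ℂ) (hy₀ : y₀ ∈ D')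
    (hG₀ : G y₀ ≠ 0) (hD : ∀ y ∈ D, y ∈ D' ∧ G y = 0) :
    Thin {z : I0 (n + 1) ⊕ κ → ℂ | ∃ e : ε → ℂ, Sum.elim z e ∈ D} := by
  classical
  have hsol : ∀ x : I0 (n + 1), RatOn (F0 κ s) D (fun y => y (Sum.inl (Sum.inl x))) := by
    rintro (⟨i, j⟩ | i | ⟨⟩)
    · exact hA i j
    · exact hb i
    · exact hc
  obtain ⟨Φ, h1, h2⟩ := exists_rel (fun e => (Sum.inl (s e) : I0 (n + 1) ⊕ κ))
    (Sum.inl_injective.comp hs) D D' (fun e => hsol (s e)) G hG y₀ hy₀ hG₀ hD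
  refine ⟨Φ, h1, ?_⟩
  rintro z ⟨e, he⟩
  have h3 := h2 (Sum.elim z e) he
  have h4 : (fun i => Sum.elim z e (Sum.inl i)) = z := by
    funext i
    rfl
  rw [h4] at h3
  exact h3

end gen

section

variable {n : ℕ} {κ : Type} [Fintype κ] (H : HD n κ)

/-- The solved coordinates for one critical point. -/
def s1 (n : ℕ) (e : Fin (n + 1)) : I0 (n + 1) :=
  if e = Fin.last n then Sum.inr (Sum.inr ()) else Sum.inr (Sum.inl e)

theorem s1_inj (n : ℕ) : Function.Injective (s1 n) := by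
  intro a b h
  unfold s1 at h
  split_ifs at h with h1 h2 h2
  · rw [h1, h2]
  · simp at h
  · simp at h
  · simpa using h

theorem ne_s1 {n : ℕ} {x : I0 (n + 1)} (h1 : x ≠ Sum.inr (Sum.inr ()))
    (h2 : ∀ e : Fin n, x ≠ Sum.inr (Sum.inl e.castSucc)) (e : Fin (n + 1)) : x ≠ s1 n e := by
  unfold s1
  split_ifs with h
  · exact h1
  · obtain ⟨e', rfl⟩ := Fin.exists_castSucc_eq.mpr h
    exact h2 e'

/-- **Chart 1**: nondegeneracy at critical points. -/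
theorem chart1 (Gf : QPc (n + 1) → (κ → ℂ) → ℂ → (Fin (n + 1) → ℂ) → ℂ) (hGf : RF H Gf)
    (p₀ : QPc (n + 1)) (r₀ : κ → ℂ) (w₀ : Fin (n + 1) → ℂ) (h0 : CritAt H p₀ r₀ 0 w₀)
    (hne : Gf p₀ r₀ 0 w₀ ≠ 0) :
    Thin {z : I0 (n + 1) ⊕ κ → ℂ | ∃ w, CritAt H (pz z) (rz z) 0 w ∧
      Gf (pz z) (rz z) 0 w = 0} := by
  let D : Set ((I0 (n + 1) ⊕ κ) ⊕ Fin (n + 1) → ℂ) :=
    {y | CritAt H (Py y) (Ry y) 0 (fun i => y (Sum.inr i))}
  have hA : ∀ i j, RatOn (F0 κ (s1 n)) D (fun y => (Py y).1 i j) := fun i j =>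
    free_p (ne_s1 (by simp) (by simp))
  have hr : ∀ k, RatOn (F0 κ (s1 n)) D (fun y => Ry y k) := free_r
  have hw : ∀ i, RatOn (F0 κ (s1 n)) D (fun y => y (Sum.inr i)) := free_e
  have hdom : ∀ y ∈ D, H.dom (Ry y) (fun i => y (Sum.inr i)) := fun y hy => hy.1
  have hb : ∀ i, RatOn (F0 κ (s1 n)) D (fun y => (Py y).2.1 i) := by
    intro i
    induction i using Fin.lastCases with
    | last =>
      refine free_p (ne_s1 (by simp) ?_)
      intro e h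
      have h1 : Fin.last n = e.castSucc := by simpa using h
      exact Fin.castSucc_ne_last e h1.symm
    | cast i =>
      exact solve_b i.castSucc hA hw (H.ratG hr hw hdom i.castSucc) fun y hy => hy.2.2 i
  have hc : RatOn (F0 κ (s1 n)) D (fun y => (Py y).2.2) :=
    solve_c hA hb hw (H.ratV hr hw hdom) fun y hy => by
      have := hy.2.1
      rw [add_zero] at this
      exact this
  have key := chart_thin (s1_inj n) (D := {y | y ∈ D ∧ Gf (Py y) (Ry y) 0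
    (fun i => y (Sum.inr i)) = 0}) (D' := D)
    (fun i j => (hA i j).mono fun y hy => hy.1) (fun i => (hb i).mono fun y hy => hy.1)
    (hc.mono fun y hy => hy.1) (G := fun y => Gf (Py y) (Ry y) 0 (fun i => y (Sum.inr i)))
    (hGf hA hb hc hr (RatOn.const 0) hw hdom)
    (Sum.elim (Sum.elim (ofQ p₀) r₀) w₀) h0 hne (fun y hy => hy)
  refine key.mono ?_
  rintro z ⟨w, h1, h2⟩
  exact ⟨w, h1, h2⟩

/-- The solved coordinates for one singular point. -/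
def s3 (n : ℕ) (e : Fin (n + 1)) : I0 (n + 1) := Sum.inr (Sum.inl e)

theorem s3_inj (n : ℕ) : Function.Injective (s3 n) :=
  Sum.inr_injective.comp Sum.inl_injective

/-- **Chart 3**: nondegeneracy at singular points. -/
theorem chart3 (Gf : QPc (n + 1) → (κ → ℂ) → ℂ → (Fin (n + 1) → ℂ) → ℂ) (hGf : RF H Gf)
    (p₀ : QPc (n + 1)) (r₀ : κ → ℂ) (t₀ : ℂ) (v₀ : Fin (n + 1) → ℂ) (h0 : SingAt H p₀ r₀ t₀ v₀)
    (hne : Gf p₀ r₀ t₀ v₀ ≠ 0) :
    Thin {z : I0 (n + 1) ⊕ κ → ℂ | ∃ t v, SingAt H (pz z) (rz z) t v ∧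
      Gf (pz z) (rz z) t v = 0} := by
  let D : Set ((I0 (n + 1) ⊕ κ) ⊕ Fin (n + 1) → ℂ) :=
    {y | H.dom (Ry y) (fun i => y (Sum.inr i)) ∧
      ∀ i, qg (Py y) (fun i => y (Sum.inr i)) i = H.G (Ry y) (fun i => y (Sum.inr i)) i}
  have hA : ∀ i j, RatOn (F0 κ (s3 n)) D (fun y => (Py y).1 i j) := fun i j =>
    free_p (by simp [s3])
  have hr : ∀ k, RatOn (F0 κ (s3 n)) D (fun y => Ry y k) := free_r
  have hw : ∀ i, RatOn (F0 κ (s3 n)) D (fun y => y (Sum.inr i)) := free_e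
  have hdom : ∀ y ∈ D, H.dom (Ry y) (fun i => y (Sum.inr i)) := fun y hy => hy.1
  have hb : ∀ i, RatOn (F0 κ (s3 n)) D (fun y => (Py y).2.1 i) := fun i =>
    solve_b i hA hw (H.ratG hr hw hdom i) fun y hy => hy.2 i
  have hc : RatOn (F0 κ (s3 n)) D (fun y => (Py y).2.2) := free_p (by simp [s3])
  have ht : RatOn (F0 κ (s3 n)) D (fun y => H.V (Ry y) (fun i => y (Sum.inr i)) -
      qv (Py y) (fun i => y (Sum.inr i))) := (H.ratV hr hw hdom).sub (RatOn.qv hA hb hc hw)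
  have key := chart_thin (s3_inj n) (D := {y | y ∈ D ∧ Gf (Py y) (Ry y)
    (H.V (Ry y) (fun i => y (Sum.inr i)) - qv (Py y) (fun i => y (Sum.inr i)))
    (fun i => y (Sum.inr i)) = 0}) (D' := D)
    (fun i j => (hA i j).mono fun y hy => hy.1) (fun i => (hb i).mono fun y hy => hy.1)
    (hc.mono fun y hy => hy.1) (G := fun y => Gf (Py y) (Ry y)
      (H.V (Ry y) (fun i => y (Sum.inr i)) - qv (Py y) (fun i => y (Sum.inr i)))
      (fun i => y (Sum.inr i)))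
    (hGf hA hb hc hr ht hw hdom)
    (Sum.elim (Sum.elim (ofQ p₀) r₀) v₀) ⟨h0.1, h0.2.2⟩ (by
      have h1 : H.V r₀ v₀ - qv p₀ v₀ = t₀ := by
        rw [← h0.2.1]
        ring
      change Gf p₀ r₀ (H.V r₀ v₀ - qv p₀ v₀) v₀ ≠ 0
      rw [h1]
      exact hne) (fun y hy => hy)
  refine key.mono ?_
  rintro z ⟨t, v, h1, h2⟩
  refine ⟨v, ⟨h1.1, h1.2.2⟩, ?_⟩
  have h3 : H.V (rz z) v - qv (pz z) v = t := by
    rw [← h1.2.1]
    ring
  change Gf (pz z) (rz z) (H.V (rz z) v - qv (pz z) v) v = 0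
  rw [h3]
  exact h2

end

end Pool.Agent.QCG
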