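import Mathlib
import Pool.Agent.QCG.Chart1

set_option autoImplicit false

/-! # Charts for two points -/

namespace Pool.Agent.QCG

open MvPolynomial Pool.Agent.QC

section

variable {n : ℕ}

/-- The second point `w'` with the same last coordinate as `w`. -/
def snd (w : Fin (n + 1) → ℂ) (u : Fin n → ℂ) : Fin (n + 1) → ℂ :=
  Fin.snoc (α := fun _ => ℂ) u (w (Fin.last n))

@[simp]
theorem snd_castSucc (w : Fin (n + 1) → ℂ) (u : Fin n → ℂ) (i : Fin n) :
    snd w u i.castSucc = u i := by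
  simp [snd]

@[simp]
theorem snd_last (w : Fin (n + 1) → ℂ) (u : Fin n → ℂ) :
    snd w u (Fin.last n) = w (Fin.last n) := by
  simp [snd]

theorem snd_single (j : Fin n) :
    snd (0 : Fin (n + 1) → ℂ) (Pi.single j 1) = Pi.single j.castSucc 1 := by
  funext i
  induction i using Fin.lastCases with
  | last =>
    rw [snd_last, Pi.single_eq_of_ne (Fin.castSucc_ne_last j).symm]
    rfl
  | cast i =>
    rw [snd_castSucc]
    by_cases h : i = j
    · rw [h, Pi.single_eq_same, Pi.single_eq_same]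
    · rw [Pi.single_eq_of_ne h, Pi.single_eq_of_ne fun h1 => h (Fin.castSucc_injective n h1)]

theorem snd_eq {w w' : Fin (n + 1) → ℂ} (h : w' (Fin.last n) = w (Fin.last n)) :
    snd w (fun i => w' i.castSucc) = w' := by
  funext i
  induction i using Fin.lastCases with
  | last => rw [snd_last, h]
  | cast i => rw [snd_castSucc]

theorem rat_snd {ρ : Type} {σ : Set ρ} {D : Set (ρ → ℂ)} {w : (ρ → ℂ) → Fin (n + 1) → ℂ}
    {u : (ρ → ℂ) → Fin n → ℂ} (hw : ∀ i, RatOn σ D (fun y => w y i))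
    (hu : ∀ i, RatOn σ D (fun y => u y i)) (i : Fin (n + 1)) :
    RatOn σ D (fun y => snd (w y) (u y) i) := by
  induction i using Fin.lastCases with
  | last => exact (hw (Fin.last n)).congr fun y _ => snd_last _ _
  | cast i => exact (hu i).congr fun y _ => snd_castSucc _ _ _

/-- Two different points with the same last coordinate differ in another one. -/
theorem exists_ne {w w' : Fin (n + 1) → ℂ} (h : w' ≠ w) (hn : w' (Fin.last n) = w (Fin.last n)) :
    ∃ j : Fin n, w' j.castSucc ≠ w j.castSucc := by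
  by_contra hcon
  push Not at hcon
  apply h
  funext i
  induction i using Fin.lastCases with
  | last => exact hn
  | cast i => exact hcon i

end

section

variable {n : ℕ} {κ : Type} [Fintype κ] (H : HD n κ)

/-- The sample condition for the defect of the trapezoid rule. -/
def SampE (j : Fin (n + 1)) : Prop :=
  ∃ r : κ → ℂ, H.dom r 0 ∧ H.dom r (Pi.single j 1) ∧ EE H r 0 (Pi.single j 1) ≠ 0

/-- The solved coordinates for two critical points with the same last coordinate. -/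
def s2 (j : Fin n) : Fin (n + 1) ⊕ Fin n → I0 (n + 1) :=
  Sum.elim (s1 n) fun i => Sum.inl (i.castSucc, j.castSucc)

omit [Fintype κ] in
theorem s2_inj (j : Fin n) : Function.Injective (s2 j) := by
  refine (s1_inj n).sumElim ?_ ?_
  · intro a b h
    simpa using h
  · intro a b
    exact (ne_s1 (by simp) (by simp) a).symm

/-- The first point. -/
def W1 {κ ε : Type} (y : (I0 (n + 1) ⊕ κ) ⊕ (Fin (n + 1) ⊕ ε) → ℂ) : Fin (n + 1) → ℂ :=
  fun i => y (Sum.inr (Sum.inl i))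

/-- The second point with the same last coordinate. -/
def W2 {κ : Type} (y : (I0 (n + 1) ⊕ κ) ⊕ (Fin (n + 1) ⊕ Fin n) → ℂ) : Fin (n + 1) → ℂ :=
  snd (W1 y) (fun i => y (Sum.inr (Sum.inr i)))

/-- **Chart 2**: two critical points with the same last coordinate. -/
theorem chart2 (j : Fin n) (hE : SampE H j.castSucc) :
    Thin {z : I0 (n + 1) ⊕ κ → ℂ | ∃ w w', CritAt H (pz z) (rz z) 0 w ∧
      CritAt H (pz z) (rz z) 0 w' ∧ w' (Fin.last n) = w (Fin.last n) ∧
      w' j.castSucc ≠ w j.castSucc} := by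
  obtain ⟨r₀, hr1, hr2, hr3⟩ := hE
  let D : Set ((I0 (n + 1) ⊕ κ) ⊕ (Fin (n + 1) ⊕ Fin n) → ℂ) :=
    {y | CritAt H (Py y) (Ry y) 0 (W1 y) ∧ CritAt H (Py y) (Ry y) 0 (W2 y) ∧
      W2 y j.castSucc ≠ W1 y j.castSucc}
  have hr : ∀ D, ∀ k, RatOn (F0 κ (s2 j)) D (fun y => Ry y k) := fun D => free_r
  have hw : ∀ D, ∀ i, RatOn (F0 κ (s2 j)) D (fun y => W1 y i) := fun D i => free_e (Sum.inl i)
  have hw' : ∀ D, ∀ i, RatOn (F0 κ (s2 j)) D (fun y => W2 y i) := fun D =>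
    rat_snd (hw D) fun i => free_e (Sum.inr i)
  have hd : ∀ y ∈ D, H.dom (Ry y) (W1 y) := fun y hy => hy.1.1
  have hd' : ∀ y ∈ D, H.dom (Ry y) (W2 y) := fun y hy => hy.2.1.1
  have hA : ∀ k l, RatOn (F0 κ (s2 j)) D (fun y => (Py y).1 k l) := by
    refine solve_col (v := fun y k => W2 y k - W1 y k)
      (γ := fun y i => H.G (Ry y) (W2 y) i - H.G (Ry y) (W1 y) i) j.castSucc
      {i | i ≠ Fin.last n} ?_ (fun k => (hw' D k).sub (hw D k))
      (fun i _ => (H.ratG (hr D) (hw' D) hd' i).sub (H.ratG (hr D) (hw D) hd i))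
      (fun y hy => sub_ne_zero.mpr hy.2.2) ?_
    · intro k l hkl
      refine free_p (s := s2 j) ?_
      rintro (e | i)
      · exact ne_s1 (by simp) (by simp) e
      · intro h
        have h1 : k = i.castSucc ∧ l = j.castSucc := by simpa [s2] using h
        rcases hkl with h2 | h2
        · exact h2 h1.2
        · apply h2
          rw [h1.1]
          exact Fin.castSucc_ne_last i
    · intro y hy i hi
      obtain ⟨i, rfl⟩ := Fin.exists_castSucc_eq.mpr hi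
      rw [qg_sub, hy.1.2.2 i, hy.2.1.2.2 i]
  have hb : ∀ i, RatOn (F0 κ (s2 j)) D (fun y => (Py y).2.1 i) := by
    intro i
    induction i using Fin.lastCases with
    | last =>
      refine free_p (s := s2 j) ?_
      rintro (e | i)
      · refine ne_s1 (by simp) ?_ e
        intro e h
        have h1 : Fin.last n = e.castSucc := by simpa using h
        exact Fin.castSucc_ne_last e h1.symm
      · simp [s2]
    | cast i =>
      exact solve_b i.castSucc hA (hw D) (H.ratG (hr D) (hw D) hd i.castSucc)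
        fun y hy => hy.1.2.2 i
  have hc : RatOn (F0 κ (s2 j)) D (fun y => (Py y).2.2) :=
    solve_c hA hb (hw D) (H.ratV (hr D) (hw D) hd) fun y hy => by
      have := hy.1.2.1
      rw [add_zero] at this
      exact this
  have key := chart_thin (s2_inj j) (D := D)
    (D' := {y | H.dom (Ry y) (W1 y) ∧ H.dom (Ry y) (W2 y)}) hA hb hc
    (G := fun y => EE H (Ry y) (W1 y) (W2 y))
    (ratE H (hr _) (hw _) (hw' _) (fun y hy => hy.1) fun y hy => hy.2)
    (Sum.elim (Sum.elim (fun _ => 0) r₀) (Sum.elim 0 (Pi.single j 1))) (by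
      refine ⟨hr1, ?_⟩
      change H.dom r₀ (snd (0 : Fin (n + 1) → ℂ) (Pi.single j 1))
      rw [snd_single]
      exact hr2) (by
      change EE H r₀ 0 (snd (0 : Fin (n + 1) → ℂ) (Pi.single j 1)) ≠ 0
      rw [snd_single]
      exact hr3) (fun y hy => ⟨⟨hd y hy, hd' y hy⟩,
        EE_eq_zero H hy.1 hy.2.1 (Or.inl (snd_last _ _).symm)⟩)
  refine key.mono ?_
  rintro z ⟨w, w', h1, h2, h3, h4⟩
  refine ⟨Sum.elim w fun i => w' i.castSucc, h1, ?_, ?_⟩
  · change CritAt H (pz z) (rz z) 0 (snd w fun i => w' i.castSucc)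
    rw [snd_eq h3]
    exact h2
  · change snd w (fun i => w' i.castSucc) j.castSucc ≠ w j.castSucc
    rw [snd_eq h3]
    exact h4

/-- The solved coordinates for a singular and a critical point with the same last coordinate. -/
def s4 (j : Fin n) : Fin (n + 1) ⊕ Fin n → I0 (n + 1) :=
  Sum.elim (s3 n) fun i => Sum.inl (i.castSucc, j.castSucc)

omit [Fintype κ] in
theorem s4_inj (j : Fin n) : Function.Injective (s4 j) := by
  refine (s3_inj n).sumElim ?_ ?_
  · intro a b h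
    simpa using h
  · intro a b
    simp [s3]

/-- **Chart 4**: a singular and a critical point with the same last coordinate. -/
theorem chart4 (j : Fin n) (hE : SampE H j.castSucc) :
    Thin {z : I0 (n + 1) ⊕ κ → ℂ | ∃ t w w', SingAt H (pz z) (rz z) t w ∧
      CritAt H (pz z) (rz z) t w' ∧ w' (Fin.last n) = w (Fin.last n) ∧
      w' j.castSucc ≠ w j.castSucc} := by
  obtain ⟨r₀, hr1, hr2, hr3⟩ := hE
  let D : Set ((I0 (n + 1) ⊕ κ) ⊕ (Fin (n + 1) ⊕ Fin n) → ℂ) :=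
    {y | (∃ t, SingAt H (Py y) (Ry y) t (W1 y) ∧ CritAt H (Py y) (Ry y) t (W2 y)) ∧
      W2 y j.castSucc ≠ W1 y j.castSucc}
  have hr : ∀ D, ∀ k, RatOn (F0 κ (s4 j)) D (fun y => Ry y k) := fun D => free_r
  have hw : ∀ D, ∀ i, RatOn (F0 κ (s4 j)) D (fun y => W1 y i) := fun D i => free_e (Sum.inl i)
  have hw' : ∀ D, ∀ i, RatOn (F0 κ (s4 j)) D (fun y => W2 y i) := fun D =>
    rat_snd (hw D) fun i => free_e (Sum.inr i)
  have hd : ∀ y ∈ D, H.dom (Ry y) (W1 y) := by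
    rintro y ⟨⟨t, h1, h2⟩, h3⟩
    exact h1.1
  have hd' : ∀ y ∈ D, H.dom (Ry y) (W2 y) := by
    rintro y ⟨⟨t, h1, h2⟩, h3⟩
    exact h2.1
  have hA : ∀ k l, RatOn (F0 κ (s4 j)) D (fun y => (Py y).1 k l) := by
    refine solve_col (v := fun y k => W2 y k - W1 y k)
      (γ := fun y i => H.G (Ry y) (W2 y) i - H.G (Ry y) (W1 y) i) j.castSucc
      {i | i ≠ Fin.last n} ?_ (fun k => (hw' D k).sub (hw D k))
      (fun i _ => (H.ratG (hr D) (hw' D) hd' i).sub (H.ratG (hr D) (hw D) hd i))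
      (fun y hy => sub_ne_zero.mpr hy.2) ?_
    · intro k l hkl
      refine free_p (s := s4 j) ?_
      rintro (e | i)
      · simp [s4, s3]
      · intro h
        have h1 : k = i.castSucc ∧ l = j.castSucc := by simpa [s4] using h
        rcases hkl with h2 | h2
        · exact h2 h1.2
        · apply h2
          rw [h1.1]
          exact Fin.castSucc_ne_last i
    · rintro y ⟨⟨t, h1, h2⟩, h3⟩ i hi
      obtain ⟨i, rfl⟩ := Fin.exists_castSucc_eq.mpr hi
      rw [qg_sub, h1.2.2 i.castSucc, h2.2.2 i]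
  have hb : ∀ i, RatOn (F0 κ (s4 j)) D (fun y => (Py y).2.1 i) := fun i =>
    solve_b i hA (hw D) (H.ratG (hr D) (hw D) hd i) (by
      rintro y ⟨⟨t, h1, h2⟩, h3⟩
      exact h1.2.2 i)
  have hc : RatOn (F0 κ (s4 j)) D (fun y => (Py y).2.2) := by
    refine free_p (s := s4 j) ?_
    rintro (e | i)
    · simp [s4, s3]
    · simp [s4]
  have key := chart_thin (s4_inj j) (D := D)
    (D' := {y | H.dom (Ry y) (W1 y) ∧ H.dom (Ry y) (W2 y)}) hA hb hc
    (G := fun y => EE H (Ry y) (W1 y) (W2 y))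
    (ratE H (hr _) (hw _) (hw' _) (fun y hy => hy.1) fun y hy => hy.2)
    (Sum.elim (Sum.elim (fun _ => 0) r₀) (Sum.elim 0 (Pi.single j 1))) (by
      refine ⟨hr1, ?_⟩
      change H.dom r₀ (snd (0 : Fin (n + 1) → ℂ) (Pi.single j 1))
      rw [snd_single]
      exact hr2) (by
      change EE H r₀ 0 (snd (0 : Fin (n + 1) → ℂ) (Pi.single j 1)) ≠ 0
      rw [snd_single]
      exact hr3) (by
      intro y hy
      refine ⟨⟨hd y hy, hd' y hy⟩, ?_⟩
      obtain ⟨⟨t, h1, h2⟩, h3⟩ := hy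
      exact EE_eq_zero H h1.crit h2 (Or.inl (snd_last _ _).symm))
  refine key.mono ?_
  rintro z ⟨t, w, w', h1, h2, h3, h4⟩
  refine ⟨Sum.elim w fun i => w' i.castSucc, ⟨t, h1, ?_⟩, ?_⟩
  · change CritAt H (pz z) (rz z) t (snd w fun i => w' i.castSucc)
    rw [snd_eq h3]
    exact h2
  · change snd w (fun i => w' i.castSucc) j.castSucc ≠ w j.castSucc
    rw [snd_eq h3]
    exact h4

/-- The solved coordinates for two points in general position, one of them singular. -/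
def s5 (j : Fin (n + 1)) : Fin (n + 1) ⊕ Fin (n + 1) → I0 (n + 1) :=
  Sum.elim (s3 n) fun i => Sum.inl (i, j)

omit [Fintype κ] in
theorem s5_inj (j : Fin (n + 1)) : Function.Injective (s5 j) := by
  refine (s3_inj n).sumElim ?_ ?_
  · intro a b h
    simpa using h
  · intro a b
    simp [s3]

omit [Fintype κ] in
theorem ne_s5 {j k l : Fin (n + 1)} (h : l ≠ j) (e : Fin (n + 1) ⊕ Fin (n + 1)) :
    (Sum.inl (k, l) : I0 (n + 1)) ≠ s5 j e := by
  rcases e with e | i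
  · simp [s5, s3]
  · intro h1
    have h2 : k = i ∧ l = j := by simpa [s5] using h1
    exact h h2.2

omit [Fintype κ] in
theorem ne_s5' {j : Fin (n + 1)} (e : Fin (n + 1) ⊕ Fin (n + 1)) :
    (Sum.inr (Sum.inr ()) : I0 (n + 1)) ≠ s5 j e := by
  rcases e with e | i
  · simp [s5, s3]
  · simp [s5]

/-- The second point. -/
def W3 {κ : Type} (y : (I0 (n + 1) ⊕ κ) ⊕ (Fin (n + 1) ⊕ Fin (n + 1)) → ℂ) : Fin (n + 1) → ℂ :=
  fun i => y (Sum.inr (Sum.inr i))

/-- **Chart 5**: two singular points. -/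
theorem chart5 (j : Fin (n + 1)) (hE : SampE H j) :
    Thin {z : I0 (n + 1) ⊕ κ → ℂ | ∃ t w w', SingAt H (pz z) (rz z) t w ∧
      SingAt H (pz z) (rz z) t w' ∧ w' j ≠ w j} := by
  obtain ⟨r₀, hr1, hr2, hr3⟩ := hE
  let D : Set ((I0 (n + 1) ⊕ κ) ⊕ (Fin (n + 1) ⊕ Fin (n + 1)) → ℂ) :=
    {y | (∃ t, SingAt H (Py y) (Ry y) t (W1 y) ∧ SingAt H (Py y) (Ry y) t (W3 y)) ∧
      W3 y j ≠ W1 y j}
  have hr : ∀ D, ∀ k, RatOn (F0 κ (s5 j)) D (fun y => Ry y k) := fun D => free_r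
  have hw : ∀ D, ∀ i, RatOn (F0 κ (s5 j)) D (fun y => W1 y i) := fun D i => free_e (Sum.inl i)
  have hw' : ∀ D, ∀ i, RatOn (F0 κ (s5 j)) D (fun y => W3 y i) := fun D i => free_e (Sum.inr i)
  have hd : ∀ y ∈ D, H.dom (Ry y) (W1 y) := by
    rintro y ⟨⟨t, h1, h2⟩, h3⟩
    exact h1.1
  have hd' : ∀ y ∈ D, H.dom (Ry y) (W3 y) := by
    rintro y ⟨⟨t, h1, h2⟩, h3⟩
    exact h2.1
  have hA : ∀ k l, RatOn (F0 κ (s5 j)) D (fun y => (Py y).1 k l) := by
    refine solve_col (v := fun y k => W3 y k - W1 y k)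
      (γ := fun y i => H.G (Ry y) (W3 y) i - H.G (Ry y) (W1 y) i) j
      Set.univ ?_ (fun k => (hw' D k).sub (hw D k))
      (fun i _ => (H.ratG (hr D) (hw' D) hd' i).sub (H.ratG (hr D) (hw D) hd i))
      (fun y hy => sub_ne_zero.mpr hy.2) ?_
    · intro k l hkl
      rcases hkl with h2 | h2
      · exact free_p (ne_s5 h2)
      · exact absurd (Set.mem_univ k) h2
    · rintro y ⟨⟨t, h1, h2⟩, h3⟩ i hi
      rw [qg_sub, h1.2.2 i, h2.2.2 i]
  have hb : ∀ i, RatOn (F0 κ (s5 j)) D (fun y => (Py y).2.1 i) := fun i =>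
    solve_b i hA (hw D) (H.ratG (hr D) (hw D) hd i) (by
      rintro y ⟨⟨t, h1, h2⟩, h3⟩
      exact h1.2.2 i)
  have hc : RatOn (F0 κ (s5 j)) D (fun y => (Py y).2.2) := free_p ne_s5'
  have key := chart_thin (s5_inj j) (D := D)
    (D' := {y | H.dom (Ry y) (W1 y) ∧ H.dom (Ry y) (W3 y)}) hA hb hc
    (G := fun y => EE H (Ry y) (W1 y) (W3 y))
    (ratE H (hr _) (hw _) (hw' _) (fun y hy => hy.1) fun y hy => hy.2)
    (Sum.elim (Sum.elim (fun _ => 0) r₀) (Sum.elim 0 (Pi.single j 1))) ⟨hr1, hr2⟩ hr3 (by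
      intro y hy
      refine ⟨⟨hd y hy, hd' y hy⟩, ?_⟩
      obtain ⟨⟨t, h1, h2⟩, h3⟩ := hy
      exact EE_eq_zero H h1.crit h2.crit (Or.inr ⟨h1.2.2 _, h2.2.2 _⟩))
  refine key.mono ?_
  rintro z ⟨t, w, w', h1, h2, h3⟩
  exact ⟨Sum.elim w w', ⟨t, h1, h2⟩, h3⟩

/-- The last component of the gradient at the second point. -/
noncomputable def lastG (r : κ → ℂ) (v w : Fin (n + 1) → ℂ) : ℂ :=
  (2 * (H.V r w - H.V r v) - (∑ i : Fin n, (H.G r v i.castSucc + H.G r w i.castSucc) *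
    (w i.castSucc - v i.castSucc))) / (w (Fin.last n) - v (Fin.last n)) -
    H.G r v (Fin.last n)

omit [Fintype κ] in
theorem lastG_eq {p : QPc (n + 1)} {r : κ → ℂ} {t : ℂ} {v w : Fin (n + 1) → ℂ}
    (hv : SingAt H p r t v) (hw : CritAt H p r t w) (hn : w (Fin.last n) ≠ v (Fin.last n)) :
    qg p w (Fin.last n) = lastG H r v w := by
  have h1 := trapezoid p v w
  rw [Fin.sum_univ_castSucc, hv.2.2 (Fin.last n)] at h1
  have h2 : ∑ i : Fin n, (qg p v i.castSucc + qg p w i.castSucc) *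
      (w i.castSucc - v i.castSucc) = ∑ i : Fin n, (H.G r v i.castSucc + H.G r w i.castSucc) *
      (w i.castSucc - v i.castSucc) := by
    refine Finset.sum_congr rfl fun i _ => ?_
    rw [hv.2.2 i.castSucc, hw.2.2 i]
  have h3 : qv p w - qv p v = H.V r w - H.V r v := by
    rw [← hv.2.1, ← hw.2.1]
    ring
  rw [h2, h3] at h1
  have h4 : w (Fin.last n) - v (Fin.last n) ≠ 0 := sub_ne_zero.mpr hn
  rw [lastG, h1]
  field_simp
  ring

/-- **Chart 6**: a singular and a critical point with different last coordinates. -/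
theorem chart6 (Gf : QPc (n + 1) → (κ → ℂ) → ℂ → (Fin (n + 1) → ℂ) → ℂ) (hGf : RF H Gf)
    (p₀ : QPc (n + 1)) (r₀ : κ → ℂ) (t₀ : ℂ) (v₀ w₀ : Fin (n + 1) → ℂ)
    (h0 : SingAt H p₀ r₀ t₀ v₀) (h0' : CritAt H p₀ r₀ t₀ w₀)
    (hn : w₀ (Fin.last n) ≠ v₀ (Fin.last n)) (hne : Gf p₀ r₀ t₀ w₀ ≠ 0) :
    Thin {z : I0 (n + 1) ⊕ κ → ℂ | ∃ t v w, SingAt H (pz z) (rz z) t v ∧
      CritAt H (pz z) (rz z) t w ∧ w (Fin.last n) ≠ v (Fin.last n) ∧
      Gf (pz z) (rz z) t w = 0} := by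
  let j := Fin.last n
  let D : Set ((I0 (n + 1) ⊕ κ) ⊕ (Fin (n + 1) ⊕ Fin (n + 1)) → ℂ) :=
    {y | (∃ t, SingAt H (Py y) (Ry y) t (W1 y) ∧ CritAt H (Py y) (Ry y) t (W3 y)) ∧
      W3 y j ≠ W1 y j}
  have hr : ∀ D, ∀ k, RatOn (F0 κ (s5 j)) D (fun y => Ry y k) := fun D => free_r
  have hw : ∀ D, ∀ i, RatOn (F0 κ (s5 j)) D (fun y => W1 y i) := fun D i => free_e (Sum.inl i)
  have hw' : ∀ D, ∀ i, RatOn (F0 κ (s5 j)) D (fun y => W3 y i) := fun D i => free_e (Sum.inr i)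
  have hd : ∀ y ∈ D, H.dom (Ry y) (W1 y) := by
    rintro y ⟨⟨t, h1, h2⟩, h3⟩
    exact h1.1
  have hd' : ∀ y ∈ D, H.dom (Ry y) (W3 y) := by
    rintro y ⟨⟨t, h1, h2⟩, h3⟩
    exact h2.1
  have hL : RatOn (F0 κ (s5 j)) D (fun y => lastG H (Ry y) (W1 y) (W3 y)) := by
    refine RatOn.sub (RatOn.div (RatOn.sub (RatOn.mul (RatOn.const 2)
      ((H.ratV (hr D) (hw' D) hd').sub (H.ratV (hr D) (hw D) hd)))
      (RatOn.sum Finset.univ fun i _ => ((H.ratG (hr D) (hw D) hd _).add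
        (H.ratG (hr D) (hw' D) hd' _)).mul ((hw' D _).sub (hw D _))))
      ((hw' D _).sub (hw D _)) fun y hy => sub_ne_zero.mpr hy.2) (H.ratG (hr D) (hw D) hd _)
  have hA : ∀ k l, RatOn (F0 κ (s5 j)) D (fun y => (Py y).1 k l) := by
    refine solve_col (v := fun y k => W3 y k - W1 y k)
      (γ := fun y i => (if i = Fin.last n then lastG H (Ry y) (W1 y) (W3 y) else
        H.G (Ry y) (W3 y) i) - H.G (Ry y) (W1 y) i) j
      Set.univ ?_ (fun k => (hw' D k).sub (hw D k))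
      (fun i _ => ?_) (fun y hy => sub_ne_zero.mpr hy.2) ?_
    · intro k l hkl
      rcases hkl with h2 | h2
      · exact free_p (ne_s5 h2)
      · exact absurd (Set.mem_univ k) h2
    · split_ifs with h
      · exact hL.sub (H.ratG (hr D) (hw D) hd i)
      · exact (H.ratG (hr D) (hw' D) hd' i).sub (H.ratG (hr D) (hw D) hd i)
    · rintro y ⟨⟨t, h1, h2⟩, h3⟩ i hi
      rw [qg_sub, h1.2.2 i]
      split_ifs with h
      · rw [h, lastG_eq H h1 h2 h3]
      · obtain ⟨i, rfl⟩ := Fin.exists_castSucc_eq.mpr h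
        rw [h2.2.2 i]
  have hb : ∀ i, RatOn (F0 κ (s5 j)) D (fun y => (Py y).2.1 i) := fun i =>
    solve_b i hA (hw D) (H.ratG (hr D) (hw D) hd i) (by
      rintro y ⟨⟨t, h1, h2⟩, h3⟩
      exact h1.2.2 i)
  have hc : RatOn (F0 κ (s5 j)) D (fun y => (Py y).2.2) := free_p ne_s5'
  have ht : RatOn (F0 κ (s5 j)) D (fun y => H.V (Ry y) (W1 y) - qv (Py y) (W1 y)) :=
    (H.ratV (hr D) (hw D) hd).sub (RatOn.qv hA hb hc (hw D))
  have key := chart_thin (s5_inj j)
    (D := {y | y ∈ D ∧ Gf (Py y) (Ry y) (H.V (Ry y) (W1 y) - qv (Py y) (W1 y)) (W3 y) = 0})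
    (D' := D)
    (fun i j => (hA i j).mono fun y hy => hy.1) (fun i => (hb i).mono fun y hy => hy.1)
    (hc.mono fun y hy => hy.1)
    (G := fun y => Gf (Py y) (Ry y) (H.V (Ry y) (W1 y) - qv (Py y) (W1 y)) (W3 y))
    (hGf hA hb hc (hr D) ht (hw' D) hd')
    (Sum.elim (Sum.elim (ofQ p₀) r₀) (Sum.elim v₀ w₀)) ⟨⟨t₀, h0, h0'⟩, hn⟩ (by
      have h1 : H.V r₀ v₀ - qv p₀ v₀ = t₀ := by
        rw [← h0.2.1]
        ring
      change Gf p₀ r₀ (H.V r₀ v₀ - qv p₀ v₀) w₀ ≠ 0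
      rw [h1]
      exact hne) (fun y hy => hy)
  refine key.mono ?_
  rintro z ⟨t, v, w, h1, h2, h3, h4⟩
  refine ⟨Sum.elim v w, ⟨⟨t, h1, h2⟩, h3⟩, ?_⟩
  have h5 : H.V (rz z) v - qv (pz z) v = t := by
    rw [← h1.2.1]
    ring
  change Gf (pz z) (rz z) (H.V (rz z) v - qv (pz z) v) w = 0
  rw [h5]
  exact h4

end

end Pool.Agent.QCG
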