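import Mathlib
import Pool.Agent.QCG.Chart2

set_option autoImplicit false

/-! # The chart for three points -/

namespace Pool.Agent.QCG

open MvPolynomial Pool.Agent.QC

section

variable {n : ℕ} {κ : Type} [Fintype κ] (H : HD n κ)

/-- The solved coordinates for three points. -/
def s7 (j : Fin n) : Fin (n + 1) ⊕ (Fin (n + 1) ⊕ Fin n) → I0 (n + 1) :=
  Sum.elim (s3 n) (Sum.elim (fun i => Sum.inl (i, j.castSucc))
    fun i => Sum.inl (j.castSucc.succAbove i, Fin.last n))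

omit [Fintype κ] in
theorem s7_inj (j : Fin n) : Function.Injective (s7 j) := by
  refine (s3_inj n).sumElim (Function.Injective.sumElim ?_ ?_ ?_) ?_
  · intro a b h
    simpa using h
  · intro a b h
    have h1 : j.castSucc.succAbove a = j.castSucc.succAbove b := by simpa using h
    exact Fin.succAbove_right_injective h1
  · intro a b h
    have h1 : a = j.castSucc.succAbove b ∧ j.castSucc = Fin.last n := by simpa using h
    exact Fin.castSucc_ne_last j h1.2
  · intro a b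
    rcases b with b | b
    · simp [s3]
    · simp [s3]

omit [Fintype κ] in
theorem ne_s7 {j : Fin n} {k l : Fin (n + 1)} (h : l ≠ j.castSucc)
    (h' : l ≠ Fin.last n ∨ k = j.castSucc) (e : Fin (n + 1) ⊕ (Fin (n + 1) ⊕ Fin n)) :
    (Sum.inl (k, l) : I0 (n + 1)) ≠ s7 j e := by
  rcases e with e | i | i
  · simp [s7, s3]
  · intro h1
    have h2 : k = i ∧ l = j.castSucc := by simpa [s7] using h1
    exact h h2.2
  · intro h1
    have h2 : k = j.castSucc.succAbove i ∧ l = Fin.last n := by simpa [s7] using h1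
    rcases h' with h3 | h3
    · exact h3 h2.2
    · exact Fin.succAbove_ne j.castSucc i (h2.1.symm.trans h3)

omit [Fintype κ] in
theorem ne_s7' {j : Fin n} (e : Fin (n + 1) ⊕ (Fin (n + 1) ⊕ Fin n)) :
    (Sum.inr (Sum.inr ()) : I0 (n + 1)) ≠ s7 j e := by
  rcases e with e | i | i
  · simp [s7, s3]
  · simp [s7]
  · simp [s7]

/-- The second point. -/
def V2 {κ : Type} (y : (I0 (n + 1) ⊕ κ) ⊕ (Fin (n + 1) ⊕ (Fin (n + 1) ⊕ Fin n)) → ℂ) :
    Fin (n + 1) → ℂ :=
  fun i => y (Sum.inr (Sum.inr (Sum.inl i)))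

/-- The third point with the same last coordinate. -/
def V3 {κ : Type} (y : (I0 (n + 1) ⊕ κ) ⊕ (Fin (n + 1) ⊕ (Fin (n + 1) ⊕ Fin n)) → ℂ) :
    Fin (n + 1) → ℂ :=
  snd (V2 y) (fun i => y (Sum.inr (Sum.inr (Sum.inr i))))

omit [Fintype κ] in
theorem rat_lastG {ρ : Type} {σ : Set ρ} {D : Set (ρ → ℂ)} {r : (ρ → ℂ) → κ → ℂ}
    {v w : (ρ → ℂ) → Fin (n + 1) → ℂ} (hr : ∀ k, RatOn σ D (fun y => r y k))
    (hv : ∀ i, RatOn σ D (fun y => v y i)) (hw : ∀ i, RatOn σ D (fun y => w y i))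
    (hd : ∀ y ∈ D, H.dom (r y) (v y)) (hd' : ∀ y ∈ D, H.dom (r y) (w y))
    (hn : ∀ y ∈ D, w y (Fin.last n) ≠ v y (Fin.last n)) :
    RatOn σ D (fun y => lastG H (r y) (v y) (w y)) :=
  RatOn.sub (RatOn.div (RatOn.sub (RatOn.mul (RatOn.const 2)
      ((H.ratV hr hw hd').sub (H.ratV hr hv hd)))
      (RatOn.sum Finset.univ fun _ _ => ((H.ratG hr hv hd _).add
        (H.ratG hr hw hd' _)).mul ((hw _).sub (hv _))))
      ((hw _).sub (hv _)) fun y hy => sub_ne_zero.mpr (hn y hy)) (H.ratG hr hv hd _)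

/-- **Chart 7**: a singular point and two critical points with the same last coordinate. -/
theorem chart7 (j : Fin n) (hE : SampE H j.castSucc) :
    Thin {z : I0 (n + 1) ⊕ κ → ℂ | ∃ t v w w', SingAt H (pz z) (rz z) t v ∧
      CritAt H (pz z) (rz z) t w ∧ CritAt H (pz z) (rz z) t w' ∧
      w (Fin.last n) ≠ v (Fin.last n) ∧ w' (Fin.last n) = w (Fin.last n) ∧
      w' j.castSucc ≠ w j.castSucc} := by
  obtain ⟨r₀, hr1, hr2, hr3⟩ := hE
  let D : Set ((I0 (n + 1) ⊕ κ) ⊕ (Fin (n + 1) ⊕ (Fin (n + 1) ⊕ Fin n)) → ℂ) :=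
    {y | (∃ t, SingAt H (Py y) (Ry y) t (W1 y) ∧ CritAt H (Py y) (Ry y) t (V2 y) ∧
      CritAt H (Py y) (Ry y) t (V3 y)) ∧ V2 y (Fin.last n) ≠ W1 y (Fin.last n) ∧
      V3 y j.castSucc ≠ V2 y j.castSucc}
  have hr : ∀ D, ∀ k, RatOn (F0 κ (s7 j)) D (fun y => Ry y k) := fun D => free_r
  have hv : ∀ D, ∀ i, RatOn (F0 κ (s7 j)) D (fun y => W1 y i) := fun D i => free_e (Sum.inl i)
  have hw : ∀ D, ∀ i, RatOn (F0 κ (s7 j)) D (fun y => V2 y i) :=
    fun D i => free_e (Sum.inr (Sum.inl i))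
  have hw' : ∀ D, ∀ i, RatOn (F0 κ (s7 j)) D (fun y => V3 y i) := fun D =>
    rat_snd (hw D) fun i => free_e (Sum.inr (Sum.inr i))
  have hdv : ∀ y ∈ D, H.dom (Ry y) (W1 y) := by
    rintro y ⟨⟨t, h1, h2, h3⟩, h4, h5⟩
    exact h1.1
  have hd : ∀ y ∈ D, H.dom (Ry y) (V2 y) := by
    rintro y ⟨⟨t, h1, h2, h3⟩, h4, h5⟩
    exact h2.1
  have hd' : ∀ y ∈ D, H.dom (Ry y) (V3 y) := by
    rintro y ⟨⟨t, h1, h2, h3⟩, h4, h5⟩
    exact h3.1
  have hlast : ∀ y : (I0 (n + 1) ⊕ κ) ⊕ (Fin (n + 1) ⊕ (Fin (n + 1) ⊕ Fin n)) → ℂ,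
      V3 y (Fin.last n) = V2 y (Fin.last n) := fun y => snd_last _ _
  have hL : RatOn (F0 κ (s7 j)) D (fun y => lastG H (Ry y) (W1 y) (V2 y)) :=
    rat_lastG H (hr D) (hv D) (hw D) hdv hd fun y hy => hy.2.1
  have hL' : RatOn (F0 κ (s7 j)) D (fun y => lastG H (Ry y) (W1 y) (V3 y)) :=
    rat_lastG H (hr D) (hv D) (hw' D) hdv hd' fun y hy => by
      rw [hlast]
      exact hy.2.1
  -- the block
  have hblk : ∀ k l : Fin n, RatOn (F0 κ (s7 j)) D (fun y => (Py y).1 k.castSucc l.castSucc) := by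
    refine solve_col (A := fun y k l => (Py y).1 k.castSucc l.castSucc)
      (v := fun y k => V3 y k.castSucc - V2 y k.castSucc)
      (γ := fun y i => H.G (Ry y) (V3 y) i.castSucc - H.G (Ry y) (V2 y) i.castSucc) j
      Set.univ ?_ (fun k => (hw' D _).sub (hw D _))
      (fun i _ => (H.ratG (hr D) (hw' D) hd' _).sub (H.ratG (hr D) (hw D) hd _))
      (fun y hy => sub_ne_zero.mpr hy.2.2) ?_
    · intro k l hkl
      rcases hkl with h2 | h2
      · exact free_p (ne_s7 (fun h => h2 (Fin.castSucc_injective n h))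
          (Or.inl (Fin.castSucc_ne_last l)))
      · exact absurd (Set.mem_univ k) h2
    · rintro y ⟨⟨t, h1, h2, h3⟩, h4, h5⟩ i hi
      have h6 := qg_sub (Py y) (V2 y) (V3 y) i.castSucc
      rw [Fin.sum_univ_castSucc, hlast, sub_self, mul_zero, add_zero, h2.2.2 i, h3.2.2 i] at h6
      exact h6
  -- the last column
  have hcol : ∀ i : Fin n, RatOn (F0 κ (s7 j)) D (fun y => (Py y).1 i.castSucc (Fin.last n)) := by
    intro i
    by_cases hij : i = j
    · rw [hij]
      exact free_p (ne_s7 (Fin.castSucc_ne_last j).symm (Or.inr rfl))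
    · have hfr : RatOn (F0 κ (s7 j)) D (fun y => (Py y).1 (Fin.last n) i.castSucc) :=
        free_p (ne_s7 (fun h => hij (Fin.castSucc_injective n h))
          (Or.inl (Fin.castSucc_ne_last i)))
      refine (RatOn.sub (RatOn.div (RatOn.sub
        ((H.ratG (hr D) (hw D) hd i.castSucc).sub (H.ratG (hr D) (hv D) hdv i.castSucc))
        (RatOn.sum Finset.univ fun k _ => ((hblk i k).add (hblk k i)).mul
          ((hw D k.castSucc).sub (hv D k.castSucc))))
        ((hw D (Fin.last n)).sub (hv D (Fin.last n))) fun y hy => sub_ne_zero.mpr hy.2.1)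
        hfr).congr ?_
      rintro y ⟨⟨t, h1, h2, h3⟩, h4, h5⟩
      have h6 := qg_sub (Py y) (W1 y) (V2 y) i.castSucc
      rw [Fin.sum_univ_castSucc, h1.2.2 i.castSucc, h2.2.2 i] at h6
      have h7 : V2 y (Fin.last n) - W1 y (Fin.last n) ≠ 0 := sub_ne_zero.mpr h4
      rw [← h6]
      field_simp
      ring
  -- the last row
  have hrow : ∀ i : Fin n, RatOn (F0 κ (s7 j)) D (fun y => (Py y).1 (Fin.last n) i.castSucc) := by
    have h0 : ∀ i : Fin n, i ≠ j →
        RatOn (F0 κ (s7 j)) D (fun y => (Py y).1 (Fin.last n) i.castSucc) := fun i hij =>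
      free_p (ne_s7 (fun h => hij (Fin.castSucc_injective n h))
        (Or.inl (Fin.castSucc_ne_last i)))
    intro i
    by_cases hij : i = j
    · rw [hij]
      have hS : RatOn (F0 κ (s7 j)) D (fun y => ∑ k ∈ Finset.univ.erase j,
          ((Py y).1 (Fin.last n) k.castSucc + (Py y).1 k.castSucc (Fin.last n)) *
          (V3 y k.castSucc - V2 y k.castSucc)) := by
        refine RatOn.sum _ fun k hk => ?_
        exact ((h0 k (Finset.ne_of_mem_erase hk)).add (hcol k)).mul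
          ((hw' D k.castSucc).sub (hw D k.castSucc))
      refine (RatOn.sub (RatOn.div (RatOn.sub (hL'.sub hL) hS)
        ((hw' D j.castSucc).sub (hw D j.castSucc)) fun y hy => sub_ne_zero.mpr hy.2.2)
        (hcol j)).congr ?_
      rintro y ⟨⟨t, h1, h2, h3⟩, h4, h5⟩
      have h6 := qg_sub (Py y) (V2 y) (V3 y) (Fin.last n)
      rw [Fin.sum_univ_castSucc, hlast, sub_self, mul_zero, add_zero, lastG_eq H h1 h2 h4,
        lastG_eq H h1 h3 (by rw [hlast]; exact h4),
        ← Finset.add_sum_erase Finset.univ (fun k : Fin n => ((Py y).1 (Fin.last n) k.castSucc +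
          (Py y).1 k.castSucc (Fin.last n)) * (V3 y k.castSucc - V2 y k.castSucc))
          (Finset.mem_univ j)] at h6
      have h7 : V3 y j.castSucc - V2 y j.castSucc ≠ 0 := sub_ne_zero.mpr h5
      rw [← h6]
      field_simp
      ring
    · exact h0 i hij
  -- the corner
  have hnn : RatOn (F0 κ (s7 j)) D (fun y => (Py y).1 (Fin.last n) (Fin.last n)) := by
    refine (RatOn.div (RatOn.sub (hL.sub (H.ratG (hr D) (hv D) hdv (Fin.last n)))
      (RatOn.sum Finset.univ fun k _ => ((hrow k).add (hcol k)).mul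
        ((hw D k.castSucc).sub (hv D k.castSucc))))
      ((RatOn.const 2).mul ((hw D (Fin.last n)).sub (hv D (Fin.last n)))) fun y hy =>
        mul_ne_zero two_ne_zero (sub_ne_zero.mpr hy.2.1)).congr ?_
    rintro y ⟨⟨t, h1, h2, h3⟩, h4, h5⟩
    have h6 := qg_sub (Py y) (W1 y) (V2 y) (Fin.last n)
    rw [Fin.sum_univ_castSucc, h1.2.2 (Fin.last n), lastG_eq H h1 h2 h4] at h6
    have h7 : V2 y (Fin.last n) - W1 y (Fin.last n) ≠ 0 := sub_ne_zero.mpr h4
    rw [← h6]
    field_simp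
    ring
  have hA : ∀ k l, RatOn (F0 κ (s7 j)) D (fun y => (Py y).1 k l) := by
    intro k l
    induction k using Fin.lastCases with
    | last =>
      induction l using Fin.lastCases with
      | last => exact hnn
      | cast l => exact hrow l
    | cast k =>
      induction l using Fin.lastCases with
      | last => exact hcol k
      | cast l => exact hblk k l
  have hb : ∀ i, RatOn (F0 κ (s7 j)) D (fun y => (Py y).2.1 i) := fun i =>
    solve_b i hA (hv D) (H.ratG (hr D) (hv D) hdv i) (by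
      rintro y ⟨⟨t, h1, h2, h3⟩, h4, h5⟩
      exact h1.2.2 i)
  have hc : RatOn (F0 κ (s7 j)) D (fun y => (Py y).2.2) := free_p ne_s7'
  have key := chart_thin (s7_inj j) (D := D)
    (D' := {y | H.dom (Ry y) (V2 y) ∧ H.dom (Ry y) (V3 y)}) hA hb hc
    (G := fun y => EE H (Ry y) (V2 y) (V3 y))
    (ratE H (hr _) (hw _) (hw' _) (fun y hy => hy.1) fun y hy => hy.2)
    (Sum.elim (Sum.elim (fun _ => 0) r₀) (Sum.elim 0 (Sum.elim 0 (Pi.single j 1)))) (by
      refine ⟨hr1, ?_⟩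
      change H.dom r₀ (snd (0 : Fin (n + 1) → ℂ) (Pi.single j 1))
      rw [snd_single]
      exact hr2) (by
      change EE H r₀ 0 (snd (0 : Fin (n + 1) → ℂ) (Pi.single j 1)) ≠ 0
      rw [snd_single]
      exact hr3) (by
      intro y hy
      refine ⟨⟨hd y hy, hd' y hy⟩, ?_⟩
      obtain ⟨⟨t, h1, h2, h3⟩, h4, h5⟩ := hy
      exact EE_eq_zero H h2 h3 (Or.inl (snd_last _ _).symm))
  refine key.mono ?_
  rintro z ⟨t, v, w, w', h1, h2, h3, h4, h5, h6⟩
  refine ⟨Sum.elim v (Sum.elim w fun i => w' i.castSucc), ⟨t, h1, h2, ?_⟩, h4, ?_⟩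
  · change CritAt H (pz z) (rz z) t (snd w fun i => w' i.castSucc)
    rw [snd_eq h5]
    exact h3
  · change snd w (fun i => w' i.castSucc) j.castSucc ≠ w j.castSucc
    rw [snd_eq h5]
    exact h6

end

end Pool.Agent.QCG
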