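import Mathlib
import Pool.Agent.QCG.Chart7

set_option autoImplicit false

/-! # The critical point problem of a product of quadratic polynomials -/

namespace Pool.Agent.QCG

open MvPolynomial Pool.Agent.QC

section

variable {n l : ℕ}

/-- The index type of the coefficients of `P_1, ..., P_l`. -/
abbrev I1 (n l : ℕ) : Type := Fin l × I0 (n + 1)

/-- `P_{m+1}`. -/
def qr (r : I1 n l → ℂ) (m : Fin l) : QPc (n + 1) := toQ fun i => r (m, i)

/-- `V = prod 1 / P_m`. -/
noncomputable def VV (r : I1 n l → ℂ) (x : Fin (n + 1) → ℂ) : ℂ := ∏ m, (qv (qr r m) x)⁻¹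

/-- `G_i = - V sum d_i P_m / P_m`. -/
noncomputable def GG (r : I1 n l → ℂ) (x : Fin (n + 1) → ℂ) (i : Fin (n + 1)) : ℂ :=
  -(VV r x * ∑ m, qg (qr r m) x i * (qv (qr r m) x)⁻¹)

/-- The domain: no `P_m` vanishes. -/
def dom (r : I1 n l → ℂ) (x : Fin (n + 1) → ℂ) : Prop := ∀ m, qv (qr r m) x ≠ 0

section rat

variable {ρ : Type} {σ : Set ρ} {D : Set (ρ → ℂ)} {r : (ρ → ℂ) → I1 n l → ℂ}
  {x : (ρ → ℂ) → Fin (n + 1) → ℂ}

theorem rat_qv (hr : ∀ k, RatOn σ D (fun y => r y k)) (hx : ∀ i, RatOn σ D (fun y => x y i))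
    (m : Fin l) : RatOn σ D (fun y => qv (qr (r y) m) (x y)) :=
  RatOn.qv (fun i j => hr (m, Sum.inl (i, j))) (fun i => hr (m, Sum.inr (Sum.inl i)))
    (hr (m, Sum.inr (Sum.inr ()))) hx

theorem rat_qg (hr : ∀ k, RatOn σ D (fun y => r y k)) (hx : ∀ i, RatOn σ D (fun y => x y i))
    (m : Fin l) (i : Fin (n + 1)) : RatOn σ D (fun y => qg (qr (r y) m) (x y) i) :=
  RatOn.qg i (fun j => hr (m, Sum.inl (i, j))) (fun j => hr (m, Sum.inl (j, i)))
    (hr (m, Sum.inr (Sum.inl i))) hx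

theorem rat_VV (hr : ∀ k, RatOn σ D (fun y => r y k)) (hx : ∀ i, RatOn σ D (fun y => x y i))
    (hd : ∀ y ∈ D, dom (r y) (x y)) : RatOn σ D (fun y => VV (r y) (x y)) :=
  RatOn.prod _ fun m _ => (rat_qv hr hx m).inv fun y hy => hd y hy m

theorem rat_GG (hr : ∀ k, RatOn σ D (fun y => r y k)) (hx : ∀ i, RatOn σ D (fun y => x y i))
    (hd : ∀ y ∈ D, dom (r y) (x y)) (i : Fin (n + 1)) :
    RatOn σ D (fun y => GG (r y) (x y) i) :=
  ((rat_VV hr hx hd).mul (RatOn.sum _ fun m _ => (rat_qg hr hx m i).mul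
    ((rat_qv hr hx m).inv fun y hy => hd y hy m))).neg

end rat

/-- The critical point problem of the product. -/
noncomputable def HP (n l : ℕ) : HD n (I1 n l) where
  dom := dom
  V := VV
  G := GG
  ratV := rat_VV
  ratG := rat_GG

/-- The constant polynomial 1. -/
def cq : QPc (n + 1) := (fun _ _ => 0, fun _ => 0, 1)

theorem qv_cq (x : Fin (n + 1) → ℂ) : qv (cq : QPc (n + 1)) x = 1 := by
  simp [qv, cq]

theorem qg_cq (x : Fin (n + 1) → ℂ) (i : Fin (n + 1)) : qg (cq : QPc (n + 1)) x i = 0 := by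
  simp [qg, cq]

/-- The polynomial `1 + x_j`. -/
def lq (j : Fin (n + 1)) : QPc (n + 1) := (fun _ _ => 0, Pi.single j 1, 1)

theorem qv_lq (j : Fin (n + 1)) (x : Fin (n + 1) → ℂ) : qv (lq j) x = x j + 1 := by
  simp [qv, lq, Pi.single_apply]

theorem qg_lq (j : Fin (n + 1)) (x : Fin (n + 1) → ℂ) (i : Fin (n + 1)) :
    qg (lq j) x i = (Pi.single j 1 : Fin (n + 1) → ℂ) i := by
  simp [qg, lq]

/-- The other data of the sample for the trapezoid defect. -/
def re (m₀ : Fin l) (j : Fin (n + 1)) : I1 n l → ℂ :=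
  fun z => if z.1 = m₀ then ofQ (lq j) z.2 else ofQ cq z.2

theorem qr_re (m₀ : Fin l) (j : Fin (n + 1)) (m : Fin l) :
    qr (re m₀ j) m = if m = m₀ then lq j else cq := by
  unfold qr re
  by_cases h : m = m₀
  · simp only [h, if_true]
    rfl
  · simp only [h, if_false]
    rfl

theorem sampE (m₀ : Fin l) (j : Fin (n + 1)) : SampE (HP n l) j := by
  have hv : ∀ x : Fin (n + 1) → ℂ, ∀ m, qv (qr (re m₀ j) m) x = if m = m₀ then x j + 1 else 1 := by
    intro x m
    rw [qr_re]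
    split_ifs
    · exact qv_lq j x
    · exact qv_cq x
  have hg : ∀ x : Fin (n + 1) → ℂ, ∀ m i, qg (qr (re m₀ j) m) x i =
      if m = m₀ then (Pi.single j 1 : Fin (n + 1) → ℂ) i else 0 := by
    intro x m i
    rw [qr_re]
    split_ifs
    · exact qg_lq j x i
    · exact qg_cq x i
  have hV : ∀ x : Fin (n + 1) → ℂ, VV (re m₀ j) x = (x j + 1)⁻¹ := by
    intro x
    rw [VV, Finset.prod_eq_single m₀]
    · rw [hv, if_pos rfl]
    · intro m _ hm
      rw [hv, if_neg hm, inv_one]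
    · intro h
      exact absurd (Finset.mem_univ _) h
  have hG : ∀ x : Fin (n + 1) → ℂ, ∀ i, GG (re m₀ j) x i =
      -((x j + 1)⁻¹ * ((Pi.single j 1 : Fin (n + 1) → ℂ) i * (x j + 1)⁻¹)) := by
    intro x i
    rw [GG, hV, Finset.sum_eq_single m₀]
    · rw [hg, hv, if_pos rfl, if_pos rfl]
    · intro m _ hm
      rw [hg, if_neg hm, zero_mul]
    · intro h
      exact absurd (Finset.mem_univ _) h
  have hx0 : (0 : Fin (n + 1) → ℂ) j + 1 = 1 := by simp
  have hx1 : (Pi.single j 1 : Fin (n + 1) → ℂ) j + 1 = 2 := by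
    rw [Pi.single_eq_same]
    norm_num
  refine ⟨re m₀ j, fun m => ?_, fun m => ?_, ?_⟩
  · change qv (qr (re m₀ j) m) 0 ≠ 0
    rw [hv, hx0]
    split_ifs <;> exact one_ne_zero
  · change qv (qr (re m₀ j) m) (Pi.single j 1) ≠ 0
    rw [hv, hx1]
    split_ifs
    · exact two_ne_zero
    · exact one_ne_zero
  · change 2 * (VV (re m₀ j) (Pi.single j 1) - VV (re m₀ j) 0) -
      ∑ i, (GG (re m₀ j) 0 i + GG (re m₀ j) (Pi.single j 1) i) *
        ((Pi.single j 1 : Fin (n + 1) → ℂ) i - (0 : Fin (n + 1) → ℂ) i) ≠ 0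
    rw [Finset.sum_eq_single j]
    · rw [hV, hV, hG, hG, hx0, hx1, Pi.single_eq_same, Pi.zero_apply]
      norm_num
    · intro i _ hi
      rw [Pi.single_eq_of_ne hi, Pi.zero_apply, sub_self, mul_zero]
    · intro h
      exact absurd (Finset.mem_univ _) h

end

/-! ## The link with the polynomials -/

section

variable {n l : ℕ}

/-- The other data of a tuple. -/
def rt (q : Tup n l) : I1 n l → ℂ := fun z => ofQ (q z.1.succ) z.2

theorem qr_rt (q : Tup n l) (m : Fin l) : qr (rt q) m = q m.succ := rfl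

theorem eval_pderiv_prod {N : ℕ} {ι : Type*} [DecidableEq ι] (s : Finset ι) (f : ι → Pol N)
    (w : Fin N → ℂ) (i : Fin N) (h : ∀ m ∈ s, eval w (f m) ≠ 0) :
    eval w (pderiv i (∏ m ∈ s, f m)) =
      (∏ m ∈ s, eval w (f m)) * ∑ m ∈ s, eval w (pderiv i (f m)) * (eval w (f m))⁻¹ := by
  induction s using Finset.induction_on with
  | empty => simp
  | insert a s ha ih =>
    rw [Finset.prod_insert ha, Finset.prod_insert ha, Finset.sum_insert ha,
      Derivation.leibniz, map_add, smul_eq_mul, smul_eq_mul, map_mul, map_mul,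
      map_prod (eval w), ih fun m hm => h m (Finset.mem_insert_of_mem hm)]
    have h1 := h a (Finset.mem_insert_self a s)
    field_simp
    ring

theorem prodT_addT (q : Tup n l) (t : ℂ) :
    prodT (addT q t) = (qpol (q 0) + C t) * ∏ m : Fin l, qpol (q m.succ) := by
  rw [prodT, Fin.prod_univ_succ]
  congr 1
  · simp only [addT, if_true, qpol, C_add]
    ring

/-- `f = 0` at a point of the shifted tuple. -/
theorem eval_f (q : Tup n l) (t : ℂ) (w : Fin (n + 1) → ℂ) :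
    eval w (prodT (addT q t) - 1) = (qv (q 0) w + t) * (∏ m : Fin l, qv (q m.succ) w) - 1 := by
  rw [prodT_addT, map_sub, map_mul, map_add, eval_C, map_prod, map_one, eval_qpol]
  simp only [eval_qpol]

theorem dom_of_eval {q : Tup n l} {t : ℂ} {w : Fin (n + 1) → ℂ}
    (h : eval w (prodT (addT q t) - 1) = 0) : dom (rt q) w ∧ qv (q 0) w + t = VV (rt q) w := by
  rw [eval_f, sub_eq_zero] at h
  have h1 : ∏ m : Fin l, qv (q m.succ) w ≠ 0 := by
    intro h0
    rw [h0, mul_zero] at h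
    exact zero_ne_one h
  refine ⟨fun m => ?_, ?_⟩
  · exact Finset.prod_ne_zero_iff.mp h1 m (Finset.mem_univ m)
  · have h2 : VV (rt q) w = (∏ m : Fin l, qv (q m.succ) w)⁻¹ := by
      rw [VV, Finset.prod_inv_distrib]
      rfl
    rw [h2]
    exact eq_inv_of_mul_eq_one_left h

theorem eval_df {q : Tup n l} {t : ℂ} {w : Fin (n + 1) → ℂ} (h : dom (rt q) w)
    (i : Fin (n + 1)) : eval w (pderiv i (prodT (addT q t) - 1)) =
      (∏ m : Fin l, qv (q m.succ) w) * (qg (q 0) w i + (qv (q 0) w + t) *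
        ∑ m : Fin l, qg (q m.succ) w i * (qv (q m.succ) w)⁻¹) := by
  classical
  have h1 := eval_pderiv_prod Finset.univ (fun m : Fin l => qpol (q m.succ)) w i
    (fun m _ => by
      rw [eval_qpol]
      exact h m)
  simp only [eval_qpol, eval_pderiv_qpol] at h1
  rw [prodT_addT, map_sub, Derivation.leibniz, Derivation.map_one_eq_zero, sub_zero, map_add, map_add,
    smul_eq_mul, smul_eq_mul, map_mul, map_mul, map_add, pderiv_C, add_zero, h1, eval_C, eval_qpol,
    eval_pderiv_qpol, map_prod (eval w)]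
  simp only [eval_qpol]
  ring

theorem grad_eq {q : Tup n l} {t : ℂ} {w : Fin (n + 1) → ℂ}
    (h : eval w (prodT (addT q t) - 1) = 0) (i : Fin (n + 1)) :
    eval w (pderiv i (prodT (addT q t) - 1)) = 0 ↔ qg (q 0) w i = GG (rt q) w i := by
  obtain ⟨h1, h2⟩ := dom_of_eval h
  have h3 : ∏ m : Fin l, qv (q m.succ) w ≠ 0 := Finset.prod_ne_zero_iff.mpr fun m _ => h1 m
  rw [eval_df h1, mul_eq_zero, or_iff_right h3, h2, add_eq_zero_iff_eq_neg]
  rfl

theorem crit_iff (q : Tup n l) (t : ℂ) (w : Fin (n + 1) → ℂ) :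
    (eval w (prodT (addT q t) - 1) = 0 ∧
      ∀ i : Fin n, eval w (pderiv i.castSucc (prodT (addT q t) - 1)) = 0) ↔
    CritAt (HP n l) (q 0) (rt q) t w := by
  constructor
  · rintro ⟨h1, h2⟩
    exact ⟨(dom_of_eval h1).1, (dom_of_eval h1).2, fun i => (grad_eq h1 _).mp (h2 i)⟩
  · rintro ⟨h1, h2, h3⟩
    have h4 : eval w (prodT (addT q t) - 1) = 0 := by
      have h5 : ∏ m : Fin l, qv (q m.succ) w ≠ 0 :=
        Finset.prod_ne_zero_iff.mpr fun m _ => h1 m
      have h6 : qv (q 0) w + t = (∏ m : Fin l, qv (q m.succ) w)⁻¹ := by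
        rw [← Finset.prod_inv_distrib]
        exact h2
      rw [eval_f, h6, inv_mul_cancel₀ h5, sub_self]
    exact ⟨h4, fun i => (grad_eq h4 _).mpr (h3 i)⟩

theorem sing_iff (q : Tup n l) (t : ℂ) (w : Fin (n + 1) → ℂ) :
    (eval w (prodT (addT q t) - 1) = 0 ∧
      ∀ i : Fin (n + 1), eval w (pderiv i (prodT (addT q t) - 1)) = 0) ↔
    SingAt (HP n l) (q 0) (rt q) t w := by
  constructor
  · rintro ⟨h1, h2⟩
    exact ⟨(dom_of_eval h1).1, (dom_of_eval h1).2, fun i => (grad_eq h1 _).mp (h2 i)⟩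
  · intro h
    have h4 := ((crit_iff q t w).mpr h.crit).1
    exact ⟨h4, fun i => (grad_eq h4 _).mpr (h.2.2 i)⟩

end

end Pool.Agent.QCG
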