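import Mathlib
import Pool.Agent.QCG.Prod

set_option autoImplicit false

/-! # Genericity of N2 and N3 -/

namespace Pool.Agent.QCG

open MvPolynomial Pool.Agent.QC

section

variable {n l : ℕ}

/-- The tuple of `P_0 = p` and the other data. -/
def tp (p : QPc (n + 1)) (r : I1 n l → ℂ) : Tup n l := Fin.cons p (qr r)

@[simp]
theorem tp_zero (p : QPc (n + 1)) (r : I1 n l → ℂ) : tp p r 0 = p := rfl

@[simp]
theorem tp_succ (p : QPc (n + 1)) (r : I1 n l → ℂ) (m : Fin l) : tp p r m.succ = qr r m := rfl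

theorem rt_tp (p : QPc (n + 1)) (r : I1 n l → ℂ) : rt (tp p r) = r := by
  funext ⟨m, i⟩
  rcases i with ⟨i, j⟩ | i | ⟨⟩ <;> rfl

theorem tp_rt (q : Tup n l) : tp (q 0) (rt q) = q := by
  funext m
  induction m using Fin.cases with
  | zero => rfl
  | succ m => rfl

/-- The polynomial `f` of `(P_0 + t, P_1, ..., P_l)`. -/
noncomputable def FF (p : QPc (n + 1)) (r : I1 n l → ℂ) (t : ℂ) : Pol (n + 1) :=
  f0 (addT (tp p r) t)

theorem FF_eq (p : QPc (n + 1)) (r : I1 n l → ℂ) (t : ℂ) :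
    FF p r t = (qpol p + C t) * (∏ m : Fin l, qpol (qr r m)) - C 1 := by
  rw [FF, f0, prodT_addT, C_1]
  rfl

/-- `det Hess`. -/
noncomputable def Gh (p : QPc (n + 1)) (r : I1 n l → ℂ) (t : ℂ) (w : Fin (n + 1) → ℂ) : ℂ :=
  (hess (FF p r t) w).det

/-- `det Hess'`. -/
noncomputable def Gh' (p : QPc (n + 1)) (r : I1 n l → ℂ) (t : ℂ) (w : Fin (n + 1) → ℂ) : ℂ :=
  (hess' (FF p r t) w).det

/-- The last derivative. -/
noncomputable def Gd (p : QPc (n + 1)) (r : I1 n l → ℂ) (t : ℂ) (w : Fin (n + 1) → ℂ) : ℂ :=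
  eval w (pderiv (Fin.last n) (FF p r t))

/-- The matrix `A (lambda)`, `lambda_0 = 1 / V^(-1)`. -/
noncomputable def AL (p : QPc (n + 1)) (r : I1 n l → ℂ) (w : Fin (n + 1) → ℂ) :
    Matrix (Fin (n + 1)) (Fin (n + 1)) ℂ :=
  fun i j => (VV r w)⁻¹ * (p.1 i j + p.1 j i) +
    ∑ m : Fin l, (qv (qr r m) w)⁻¹ * ((qr r m).1 i j + (qr r m).1 j i)

/-- `det A (lambda)`. -/
noncomputable def Ga (p : QPc (n + 1)) (r : I1 n l → ℂ) (_ : ℂ) (w : Fin (n + 1) → ℂ) : ℂ :=
  (AL p r w).det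

/-- `det A' (lambda)`. -/
noncomputable def Ga' (p : QPc (n + 1)) (r : I1 n l → ℂ) (_ : ℂ) (w : Fin (n + 1) → ℂ) : ℂ :=
  ((AL p r w).submatrix Fin.castSucc Fin.castSucc).det

section rat

variable {ρ : Type} {σ : Set ρ} {D : Set (ρ → ℂ)} {p : (ρ → ℂ) → QPc (n + 1)}
  {r : (ρ → ℂ) → I1 n l → ℂ} {t : (ρ → ℂ) → ℂ}

theorem ratP_FF (hA : ∀ i j, RatOn σ D (fun y => (p y).1 i j))
    (hb : ∀ i, RatOn σ D (fun y => (p y).2.1 i)) (hc : RatOn σ D (fun y => (p y).2.2))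
    (hr : ∀ k, RatOn σ D (fun y => r y k)) (ht : RatOn σ D t) :
    RatP σ D (fun y => FF (p y) (r y) (t y)) := by
  have h1 : RatP σ D (fun y => (qpol (p y) + C (t y)) * (∏ m : Fin l, qpol (qr (r y) m)) -
      (C 1 : Pol (n + 1))) := by
    refine (((RatP.qpol hA hb hc).add (RatP.const ht)).mul (RatP.prod Finset.univ
      fun m _ => ?_)).sub (RatP.const (RatOn.const 1))
    exact RatP.qpol (fun i j => hr (m, Sum.inl (i, j))) (fun i => hr (m, Sum.inr (Sum.inl i)))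
      (hr (m, Sum.inr (Sum.inr ())))
  exact h1.congr fun y _ => FF_eq _ _ _

end rat

theorem rf_Gh : RF (HP n l) (Gh (n := n) (l := l)) := by
  intro ρ σ D p r t x hA hb hc hr ht hx _
  exact RatOn.det fun i j => RatOn.eval (((ratP_FF hA hb hc hr ht).pderiv j).pderiv i) hx

theorem rf_Gh' : RF (HP n l) (Gh' (n := n) (l := l)) := by
  intro ρ σ D p r t x hA hb hc hr ht hx _
  exact RatOn.det fun i j =>
    RatOn.eval (((ratP_FF hA hb hc hr ht).pderiv j.castSucc).pderiv i.castSucc) hx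

theorem rf_Gd : RF (HP n l) (Gd (n := n) (l := l)) := by
  intro ρ σ D p r t x hA hb hc hr ht hx _
  exact RatOn.eval ((ratP_FF hA hb hc hr ht).pderiv (Fin.last n)) hx

theorem VV_ne_zero {r : I1 n l → ℂ} {w : Fin (n + 1) → ℂ} (h : dom r w) : VV r w ≠ 0 :=
  Finset.prod_ne_zero_iff.mpr fun m _ => inv_ne_zero (h m)

theorem rat_AL {ρ : Type} {σ : Set ρ} {D : Set (ρ → ℂ)} {p : (ρ → ℂ) → QPc (n + 1)}
    {r : (ρ → ℂ) → I1 n l → ℂ} {x : (ρ → ℂ) → Fin (n + 1) → ℂ}
    (hA : ∀ i j, RatOn σ D (fun y => (p y).1 i j)) (hr : ∀ k, RatOn σ D (fun y => r y k))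
    (hx : ∀ i, RatOn σ D (fun y => x y i)) (hd : ∀ y ∈ D, dom (r y) (x y))
    (i j : Fin (n + 1)) : RatOn σ D (fun y => AL (p y) (r y) (x y) i j) :=
  (((rat_VV hr hx hd).inv fun y hy => VV_ne_zero (hd y hy)).mul ((hA i j).add (hA j i))).add
    (RatOn.sum _ fun m _ => ((rat_qv hr hx m).inv fun y hy => hd y hy m).mul
      ((hr (m, Sum.inl (i, j))).add (hr (m, Sum.inl (j, i)))))

theorem rf_Ga : RF (HP n l) (Ga (n := n) (l := l)) := by
  intro ρ σ D p r t x hA hb hc hr ht hx hd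
  exact RatOn.det fun i j => rat_AL hA hr hx hd i j

theorem rf_Ga' : RF (HP n l) (Ga' (n := n) (l := l)) := by
  intro ρ σ D p r t x hA hb hc hr ht hx hd
  exact RatOn.det fun i j => rat_AL hA hr hx hd i.castSucc j.castSucc

/-! ## The samples -/

/-- The sample `sum_{i<n} x_i^2 + a x_n^2 + b x_n + 1`. -/
def sm (n : ℕ) (a b : ℂ) : QPc (n + 1) :=
  (fun i j => if i = j then (if i = Fin.last n then a else 1) else 0, Pi.single (Fin.last n) b, 1)

/-- The other data of the sample: constants. -/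
def sr (n l : ℕ) : I1 n l → ℂ := fun z => ofQ cq z.2

theorem qr_sr (m : Fin l) : qr (sr n l) m = cq := rfl

theorem dom_sr (w : Fin (n + 1) → ℂ) : dom (sr n l) w := fun m => by
  rw [qr_sr, qv_cq]
  exact one_ne_zero

theorem VV_sr (w : Fin (n + 1) → ℂ) : VV (sr n l) w = 1 := by
  simp only [VV, qr_sr, qv_cq, inv_one, Finset.prod_const_one]

theorem GG_sr (w : Fin (n + 1) → ℂ) (i : Fin (n + 1)) : GG (sr n l) w i = 0 := by
  simp only [GG, qr_sr, qg_cq, zero_mul, Finset.sum_const_zero, mul_zero, neg_zero]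

theorem qv_sm_zero (a b : ℂ) : qv (sm n a b) 0 = 1 := by
  simp [qv, sm]

theorem qg_sm (a b : ℂ) (w : Fin (n + 1) → ℂ) (i : Fin (n + 1)) : qg (sm n a b) w i =
    2 * (if i = Fin.last n then a else 1) * w i + (Pi.single (Fin.last n) b : _ → ℂ) i := by
  rw [qg, Finset.sum_eq_single i]
  · simp only [sm, if_true]
    ring
  · intro j _ hj
    simp only [sm, if_neg hj, if_neg (Ne.symm hj), add_zero, zero_mul]
  · intro h
    exact absurd (Finset.mem_univ _) h

theorem FF_sr (p : QPc (n + 1)) (t : ℂ) : FF p (sr n l) t = qpol p + C t - C 1 := by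
  have h1 : qpol (cq : QPc (n + 1)) = 1 := by
    simp [qpol, cq]
  rw [FF_eq]
  simp only [qr_sr, h1, Finset.prod_const_one, mul_one]

theorem pderiv_FF_sr (p : QPc (n + 1)) (t : ℂ) (i : Fin (n + 1)) :
    pderiv i (FF p (sr n l) t) = pderiv i (qpol p) := by
  rw [FF_sr, map_sub, map_add, pderiv_C, pderiv_C, add_zero, sub_zero]

theorem hess_sr (a b t : ℂ) (w : Fin (n + 1) → ℂ) :
    hess (FF (sm n a b) (sr n l) t) w =
      Matrix.diagonal fun i => 2 * (if i = Fin.last n then a else 1) := by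
  ext i j
  rw [hess, pderiv_FF_sr, pderiv_pderiv_qpol, eval_C]
  by_cases h : i = j
  · rw [h, Matrix.diagonal_apply_eq]
    simp only [sm, if_true]
    ring
  · rw [Matrix.diagonal_apply_ne _ h]
    simp only [sm, if_neg h, if_neg (Ne.symm h), add_zero]

theorem hess'_sr (a b t : ℂ) (w : Fin (n + 1) → ℂ) :
    hess' (FF (sm n a b) (sr n l) t) w = Matrix.diagonal fun _ => 2 := by
  ext i j
  have h1 := congrFun (congrFun (hess_sr (l := l) a b t w) i.castSucc) j.castSucc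
  rw [hess] at h1
  rw [hess', h1]
  by_cases h : i = j
  · rw [h, Matrix.diagonal_apply_eq, Matrix.diagonal_apply_eq,
      if_neg (Fin.castSucc_ne_last j), mul_one]
  · rw [Matrix.diagonal_apply_ne _ h,
      Matrix.diagonal_apply_ne _ fun h1 => h (Fin.castSucc_injective n h1)]

theorem AL_sr (a b : ℂ) (w : Fin (n + 1) → ℂ) : AL (sm n a b) (sr n l) w =
    Matrix.diagonal fun i => 2 * (if i = Fin.last n then a else 1) := by
  ext i j
  have h0 : ∑ m : Fin l, (qv (qr (sr n l) m) w)⁻¹ *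
      ((qr (sr n l) m).1 i j + (qr (sr n l) m).1 j i) = 0 := by
    refine Finset.sum_eq_zero fun m _ => ?_
    rw [qr_sr]
    simp [cq]
  rw [AL, h0, VV_sr, add_zero, inv_one, one_mul]
  by_cases h : i = j
  · rw [h, Matrix.diagonal_apply_eq]
    simp only [sm, if_true]
    ring
  · rw [Matrix.diagonal_apply_ne _ h]
    simp only [sm, if_neg h, if_neg (Ne.symm h), add_zero]

theorem det_diag_ne (m : ℕ) : (Matrix.diagonal fun _ : Fin m => (2 : ℂ)).det ≠ 0 := by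
  rw [Matrix.det_diagonal]
  exact Finset.prod_ne_zero_iff.mpr fun _ _ => two_ne_zero

theorem det_diag_ne' : (Matrix.diagonal fun i : Fin (n + 1) =>
    (2 : ℂ) * (if i = Fin.last n then 1 else 1)).det ≠ 0 := by
  rw [Matrix.det_diagonal]
  exact Finset.prod_ne_zero_iff.mpr fun _ _ => by simp

theorem Gh_sr (b t : ℂ) (w : Fin (n + 1) → ℂ) : Gh (sm n 1 b) (sr n l) t w ≠ 0 := by
  rw [Gh, hess_sr]
  exact det_diag_ne'

theorem Gh'_sr (a b t : ℂ) (w : Fin (n + 1) → ℂ) : Gh' (sm n a b) (sr n l) t w ≠ 0 := by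
  rw [Gh', hess'_sr]
  exact det_diag_ne n

theorem Ga_sr (b t : ℂ) (w : Fin (n + 1) → ℂ) : Ga (sm n 1 b) (sr n l) t w ≠ 0 := by
  rw [Ga, AL_sr]
  exact det_diag_ne'

theorem Ga'_sr (a b t : ℂ) (w : Fin (n + 1) → ℂ) : Ga' (sm n a b) (sr n l) t w ≠ 0 := by
  have h1 : (AL (sm n a b) (sr n l) w).submatrix Fin.castSucc Fin.castSucc =
      Matrix.diagonal fun _ : Fin n => (2 : ℂ) := by
    rw [AL_sr]
    ext i j
    rw [Matrix.submatrix_apply]
    by_cases h : i = j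
    · rw [h, Matrix.diagonal_apply_eq, Matrix.diagonal_apply_eq,
        if_neg (Fin.castSucc_ne_last j), mul_one]
    · rw [Matrix.diagonal_apply_ne _ h,
        Matrix.diagonal_apply_ne _ fun h1 => h (Fin.castSucc_injective n h1)]
  rw [Ga', h1]
  exact det_diag_ne n

theorem Gd_sr (a t : ℂ) : Gd (sm n a 1) (sr n l) t 0 ≠ 0 := by
  rw [Gd, pderiv_FF_sr, eval_pderiv_qpol, qg_sm, Pi.single_eq_same, Pi.zero_apply, mul_zero,
    zero_add]
  exact one_ne_zero

theorem crit_sm (a b : ℂ) : CritAt (HP n l) (sm n a b) (sr n l) 0 0 := by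
  refine ⟨dom_sr 0, ?_, fun i => ?_⟩
  · change qv (sm n a b) 0 + 0 = VV (sr n l) 0
    rw [qv_sm_zero, VV_sr, add_zero]
  · change qg (sm n a b) 0 i.castSucc = GG (sr n l) 0 i.castSucc
    rw [qg_sm, GG_sr, Pi.zero_apply, mul_zero, zero_add,
      Pi.single_eq_of_ne (Fin.castSucc_ne_last i)]

theorem sing_sm (a : ℂ) : SingAt (HP n l) (sm n a 0) (sr n l) 0 0 := by
  refine ⟨dom_sr 0, ?_, fun i => ?_⟩
  · change qv (sm n a 0) 0 + 0 = VV (sr n l) 0
    rw [qv_sm_zero, VV_sr, add_zero]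
  · change qg (sm n a 0) 0 i = GG (sr n l) 0 i
    rw [qg_sm, GG_sr, Pi.zero_apply, mul_zero, zero_add, Pi.single_zero]
    rfl

theorem crit_sm' : CritAt (HP n l) (sm n 0 0) (sr n l) 0 (Pi.single (Fin.last n) 1) := by
  refine ⟨dom_sr _, ?_, fun i => ?_⟩
  · change qv (sm n 0 0) (Pi.single (Fin.last n) 1) + 0 = VV (sr n l) _
    rw [VV_sr, add_zero]
    have h1 := trapezoid (sm n 0 0) 0 (Pi.single (Fin.last n) 1)
    rw [Finset.sum_eq_single (Fin.last n)] at h1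
    · rw [qg_sm, qg_sm, if_pos rfl, qv_sm_zero] at h1
      simp only [mul_zero, zero_mul, Pi.single_zero, Pi.zero_apply, add_zero, mul_eq_zero,
        OfNat.ofNat_ne_zero, false_or] at h1
      exact sub_eq_zero.mp h1
    · intro i _ hi
      rw [Pi.single_eq_of_ne hi, Pi.zero_apply, sub_self, mul_zero]
    · intro h
      exact absurd (Finset.mem_univ _) h
  · change qg (sm n 0 0) (Pi.single (Fin.last n) 1) i.castSucc = GG (sr n l) _ i.castSucc
    rw [qg_sm, GG_sr, Pi.single_eq_of_ne (Fin.castSucc_ne_last i), mul_zero, Pi.single_zero]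
    simp

end

end Pool.Agent.QCG
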