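import Mathlib
import Pool.Agent.QCG.Nice
import Pool.Agent.QC.Rec

set_option autoImplicit false

/-! # Genericity of N2 and N3, second part -/

namespace Pool.Agent.QCG

open MvPolynomial Pool.Agent.QC

section

variable {n l : ℕ}

theorem addT_zero (q : Tup n l) : addT q 0 = q := by
  funext m
  unfold addT
  split_ifs with h
  · rw [h, add_zero]
  · rfl

theorem mem_crit (p : QPc (n + 1)) (r : I1 n l → ℂ) (t : ℂ) (w : Fin (n + 1) → ℂ) :
    w ∈ CritF (f0 (addT (tp p r) t)) ↔ CritAt (HP n l) p r t w := by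
  have h := crit_iff (tp p r) t w
  rw [rt_tp] at h
  exact h

theorem mem_sing (p : QPc (n + 1)) (r : I1 n l → ℂ) (t : ℂ) (w : Fin (n + 1) → ℂ) :
    w ∈ SingF (f0 (addT (tp p r) t)) ↔ SingAt (HP n l) p r t w := by
  have h := sing_iff (tp p r) t w
  rw [rt_tp] at h
  exact h

theorem mem_crit0 (p : QPc (n + 1)) (r : I1 n l → ℂ) (w : Fin (n + 1) → ℂ) :
    w ∈ CritF (f0 (tp p r)) ↔ CritAt (HP n l) p r 0 w := by
  rw [← mem_crit, addT_zero]

/-- **(N2) is generic.** -/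
theorem thin_N2 (hl : 1 ≤ l) :
    Thin {z : I0 (n + 1) ⊕ I1 n l → ℂ | ¬ N2 (tp (pz z) (rz z))} := by
  have m₀ : Fin l := ⟨0, hl⟩
  have h1 := chart1 (HP n l) Gh' rf_Gh' (sm n 1 1) (sr n l) 0 (crit_sm 1 1) (Gh'_sr 1 1 0 0)
  have h2 := chart1 (HP n l) Gd rf_Gd (sm n 1 1) (sr n l) 0 (crit_sm 1 1) (Gd_sr 1 0)
  have h3 := Thin.iUnion fun j : Fin n => chart2 (HP n l) j (sampE m₀ j.castSucc)
  refine ((h1.union h2).union h3).mono fun z hz => ?_
  by_contra hcon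
  rw [Set.mem_union, Set.mem_union, not_or, not_or, Set.mem_iUnion, not_exists] at hcon
  obtain ⟨⟨c1, c2⟩, c3⟩ := hcon
  have hF : FF (pz z) (rz z) 0 = f0 (tp (pz z) (rz z)) := by
    rw [FF, addT_zero]
  apply hz
  refine ⟨fun x hx => ⟨fun h => ?_, fun h => ?_⟩, fun x hx y hy hxy => ?_⟩
  · refine c1 ⟨x, (mem_crit0 _ _ _).mp hx, ?_⟩
    rw [Gh', hF]
    exact h
  · refine c2 ⟨x, (mem_crit0 _ _ _).mp hx, ?_⟩
    rw [Gd, hF]
    exact h
  · by_contra hne
    obtain ⟨j, hj⟩ := exists_ne hne hxy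
    exact c3 j ⟨y, x, (mem_crit0 _ _ _).mp hy, (mem_crit0 _ _ _).mp hx, hxy, hj⟩

/-- **(N3) is generic.** -/
theorem thin_N3 (hl : 1 ≤ l) :
    Thin {z : I0 (n + 1) ⊕ I1 n l → ℂ | ¬ ∀ t, N3at (addT (tp (pz z) (rz z)) t)} := by
  have m₀ : Fin l := ⟨0, hl⟩
  have h1 := chart3 (HP n l) Gh rf_Gh (sm n 1 0) (sr n l) 0 0 (sing_sm 1) (Gh_sr 0 0 0)
  have h2 := chart3 (HP n l) Gh' rf_Gh' (sm n 1 0) (sr n l) 0 0 (sing_sm 1) (Gh'_sr 1 0 0 0)
  have h3 := Thin.iUnion fun j : Fin (n + 1) => chart5 (HP n l) j (sampE m₀ j)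
  have h4 := Thin.iUnion fun j : Fin n => chart4 (HP n l) j (sampE m₀ j.castSucc)
  have h5 := chart6 (HP n l) Gh' rf_Gh' (sm n 0 0) (sr n l) 0 0 (Pi.single (Fin.last n) 1)
    (sing_sm 0) crit_sm' (by simp) (Gh'_sr 0 0 0 _)
  have h6 := Thin.iUnion fun j : Fin n => chart7 (HP n l) j (sampE m₀ j.castSucc)
  refine (((h1.union h2).union (h3.union h4)).union (h5.union h6)).mono fun z hz => ?_
  by_contra hcon
  simp only [Set.mem_union, not_or, Set.mem_iUnion, not_exists] at hcon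
  obtain ⟨⟨⟨c1, c2⟩, c3, c4⟩, c5, c6⟩ := hcon
  apply hz
  intro t v hv
  have hv' := (mem_sing _ _ _ _).mp hv
  have huniq : ∀ v' ∈ SingF (f0 (addT (tp (pz z) (rz z)) t)), v' = v := by
    intro v' hv1
    by_contra hne
    obtain ⟨j, hj⟩ : ∃ j, v' j ≠ v j := by
      by_contra hcon
      push Not at hcon
      exact hne (funext hcon)
    exact c3 j ⟨t, v, v', hv', (mem_sing _ _ _ _).mp hv1, hj⟩
  have hlast : ∀ w ∈ CritF (f0 (addT (tp (pz z) (rz z)) t)), w ≠ v →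
      w (Fin.last n) ≠ v (Fin.last n) := by
    intro w hw hne h
    obtain ⟨j, hj⟩ := exists_ne hne h
    exact c4 j ⟨t, v, w, hv', (mem_crit _ _ _ _).mp hw, h, hj⟩
  refine ⟨fun h => c1 ⟨t, v, hv', h⟩, fun h => c2 ⟨t, v, hv', h⟩, huniq,
    fun w hw hne => ⟨⟨fun h => ?_, fun h => ?_⟩, hlast w hw hne⟩, fun x hx y hy hxy => ?_⟩
  · exact c5 ⟨t, v, w, hv', (mem_crit _ _ _ _).mp hw, hlast w hw hne, h⟩
  · refine hne (huniq w ⟨hw.1, fun i => ?_⟩)
    induction i using Fin.lastCases with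
    | last => exact h
    | cast i => exact hw.2 i
  · by_contra hne
    obtain ⟨j, hj⟩ := exists_ne hne hxy
    by_cases hy' : y = v
    · have hx' : x ≠ v := by
        rw [← hy']
        exact hne
      exact hlast x hx hx' (by rw [← hy']; exact hxy)
    · exact c6 j ⟨t, v, y, x, hv', (mem_crit _ _ _ _).mp hy, (mem_crit _ _ _ _).mp hx,
        hlast y hy hy', hxy, hj⟩

/-! ## The matrices `A (lambda)` -/

/-- The matrix `A (lambda)`, `lambda_m = 1 / P_m (w)`, `A_m` = Hessian of `P_m`. -/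
noncomputable def lamM (q : Tup n l) (w : Fin (n + 1) → ℂ) :
    Matrix (Fin (n + 1)) (Fin (n + 1)) ℂ :=
  fun i j => ∑ m, (eval w (qpol (q m)))⁻¹ * ((q m).1 i j + (q m).1 j i)

/-- Nondegeneracy of `A (lambda)` at critical and singular points. -/
def NiceA (q : Tup n l) : Prop :=
  (∀ w ∈ CritF (f0 q), ((lamM q w).submatrix Fin.castSucc Fin.castSucc).det ≠ 0) ∧
  ∀ t, ∀ v ∈ SingF (f0 (addT q t)), (lamM (addT q t) v).det ≠ 0

theorem lamM_eq {p : QPc (n + 1)} {r : I1 n l → ℂ} {t : ℂ} {w : Fin (n + 1) → ℂ}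
    (h : CritAt (HP n l) p r t w) : lamM (addT (tp p r) t) w = AL p r w := by
  ext i j
  rw [lamM, Fin.sum_univ_succ, AL]
  have h1 : eval w (qpol (addT (tp p r) t 0)) = VV r w := by
    rw [eval_qpol]
    have h2 : qv (addT (tp p r) t 0) w = qv p w + t := by
      simp only [qv, addT, if_true, tp_zero]
      ring
    rw [h2]
    exact h.2.1
  rw [h1]
  congr 1
  refine Finset.sum_congr rfl fun m _ => ?_
  rw [eval_qpol]
  have h3 : addT (tp p r) t m.succ = qr r m := by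
    rw [addT, if_neg (Fin.succ_ne_zero m), tp_succ]
  rw [h3]

theorem thin_A : Thin {z : I0 (n + 1) ⊕ I1 n l → ℂ | ¬ NiceA (tp (pz z) (rz z))} := by
  have h1 := chart1 (HP n l) Ga' rf_Ga' (sm n 1 1) (sr n l) 0 (crit_sm 1 1) (Ga'_sr 1 1 0 0)
  have h2 := chart3 (HP n l) Ga rf_Ga (sm n 1 0) (sr n l) 0 0 (sing_sm 1) (Ga_sr 0 0 0)
  refine (h1.union h2).mono fun z hz => ?_
  by_contra hcon
  rw [Set.mem_union, not_or] at hcon
  obtain ⟨c1, c2⟩ := hcon
  apply hz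
  refine ⟨fun w hw h => ?_, fun t v hv h => ?_⟩
  · have hw' := (mem_crit0 _ _ _).mp hw
    refine c1 ⟨w, hw', ?_⟩
    have h3 := lamM_eq hw'
    rw [addT_zero] at h3
    rw [h3] at h
    exact h
  · have hv' := (mem_sing _ _ _ _).mp hv
    refine c2 ⟨t, v, hv', ?_⟩
    rw [lamM_eq hv'.crit] at h
    exact h

/-! ## Transfer to the index type of tuples -/

/-- The inclusion of index types. -/
def ig (n l : ℕ) : I0 (n + 1) ⊕ I1 n l → Ix n l :=
  Sum.elim (fun i => (0, i)) fun z => (z.1.succ, z.2)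

theorem ig_inj (n l : ℕ) : Function.Injective (ig n l) := by
  refine Function.Injective.sumElim ?_ ?_ ?_
  · intro a b h
    exact congrArg Prod.snd h
  · rintro ⟨a, a'⟩ ⟨b, b'⟩ h
    have h1 : a.succ = b.succ := congrArg Prod.fst h
    have h2 : a' = b' := congrArg Prod.snd h
    rw [h2, Fin.succ_injective l h1]
  · intro a b h
    have h1 : (0 : Fin (l + 1)) = b.1.succ := congrArg Prod.fst h
    exact Fin.succ_ne_zero b.1 h1.symm

theorem tp_cfs (q : Tup n l) :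
    tp (pz fun i => cfs q (ig n l i)) (rz fun i => cfs q (ig n l i)) = q := by
  funext m
  induction m using Fin.cases with
  | zero => rfl
  | succ m => rfl

theorem thin_transfer {P : Tup n l → Prop}
    (h : Thin {z : I0 (n + 1) ⊕ I1 n l → ℂ | ¬ P (tp (pz z) (rz z))}) :
    ∃ Phi : MvPolynomial (Ix n l) ℂ, Phi ≠ 0 ∧ ∀ q, eval (cfs q) Phi ≠ 0 → P q := by
  obtain ⟨Φ, h1, h2⟩ := h
  refine ⟨rename (ig n l) Φ, fun h => ?_, fun q hq => ?_⟩
  · apply h1
    exact rename_injective _ (ig_inj n l) (by rw [h, map_zero])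
  · by_contra hP
    apply hq
    rw [eval_rename]
    apply h2
    rw [Set.mem_ofPred_eq]
    have h3 := tp_cfs q
    rw [Function.comp_def, h3]
    exact hP

/-- **Genericity of the clauses on `A (lambda)`.** -/
theorem genericityA (n l : ℕ) : ∃ Phi : MvPolynomial (Ix n l) ℂ, Phi ≠ 0 ∧
    ∀ q : Tup n l, eval (cfs q) Phi ≠ 0 → NiceA q :=
  thin_transfer thin_A

end

end Pool.Agent.QCG
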