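import Mathlib
import Pool.Agent.QCG.Thin
import Pool.Agent.QC.Rec

set_option autoImplicit false

/-! # The chart for the conditions (T0) and (T') -/

namespace Pool.Agent.QCG

open MvPolynomial Pool.Agent.QC

section

variable {n l : ℕ}

/-- The tuple with given coefficients. -/
def tz (z : Ix n l → ℂ) : Tup n l := fun m =>
  (fun i j => z (m, Sum.inl (i, j)), fun i => z (m, Sum.inr (Sum.inl i)),
    z (m, Sum.inr (Sum.inr ())))

theorem tz_cfs (q : Tup n l) : tz (cfs q) = q := rfl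

variable (J : Finset (Fin (n + 1))) (j : Fin (n + 1)) (M : Finset (Fin (l + 1)))
  (m₀ : Fin (l + 1))

/-- The extra coordinates. -/
abbrev EN : Type := {m // m ∈ M} ⊕ {i // i ∈ J ∧ i ≠ j}

/-- The solved coordinates. -/
def sN : EN J j M → Ix n l :=
  Sum.elim (fun m => (m.1, Sum.inl (j, j))) (fun i => (m₀, Sum.inl (i.1, j)))

theorem sN_inj : Function.Injective (sN J j M m₀) := by
  refine Function.Injective.sumElim ?_ ?_ ?_
  · intro a b h
    exact Subtype.ext (congrArg Prod.fst h)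
  · intro a b h
    have h1 := congrArg Prod.snd h
    simp only [Sum.inl.injEq, Prod.mk.injEq, and_true] at h1
    exact Subtype.ext h1
  · intro a b h
    have h1 := congrArg Prod.snd h
    simp only [Sum.inl.injEq, Prod.mk.injEq, and_true] at h1
    exact b.2.2 h1.symm

/-- The point `xi`. -/
def xiN (y : Ix n l ⊕ EN J j M → ℂ) (i : Fin (n + 1)) : ℂ :=
  if h : i ∈ J ∧ i ≠ j then y (Sum.inr (Sum.inr ⟨i, h⟩)) else if i = j then 1 else 0

/-- The weights `c`. -/
def cN (y : Ix n l ⊕ EN J j M → ℂ) (m : Fin (l + 1)) : ℂ :=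
  if m = m₀ then 1 else if h : m ∈ M then y (Sum.inr (Sum.inl ⟨m, h⟩)) else 0

/-- The coefficient matrices. -/
def aN (y : Ix n l ⊕ EN J j M → ℂ) (m : Fin (l + 1)) (a b : Fin (n + 1)) : ℂ :=
  y (Sum.inl (m, Sum.inl (a, b)))

/-- The free coordinates. -/
abbrev FN : Set (Ix n l ⊕ EN J j M) := Fr (sN J j M m₀)

variable {D : Set (Ix n l ⊕ EN J j M → ℂ)}

theorem rat_xiN (i : Fin (n + 1)) : RatOn (FN J j M m₀) D (fun y => xiN J j M y i) := by
  by_cases h : i ∈ J ∧ i ≠ j
  · refine (RatOn.coord (inr_mem_Fr _ (Sum.inr ⟨i, h⟩))).congr fun y _ => ?_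
    rw [xiN, dif_pos h]
  · refine (RatOn.const (if i = j then 1 else 0)).congr fun y _ => ?_
    rw [xiN, dif_neg h]

theorem rat_cN (m : Fin (l + 1)) : RatOn (FN J j M m₀) D (fun y => cN J j M m₀ y m) := by
  by_cases h : m = m₀
  · refine (RatOn.const 1).congr fun y _ => ?_
    rw [cN, if_pos h]
  · by_cases h' : m ∈ M
    · refine (RatOn.coord (inr_mem_Fr _ (Sum.inl ⟨m, h'⟩))).congr fun y _ => ?_
      rw [cN, if_neg h, dif_pos h']
    · refine (RatOn.const 0).congr fun y _ => ?_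
      rw [cN, if_neg h, dif_neg h']

/-- Free entries of the coefficient matrices. -/
theorem free_aN {m : Fin (l + 1)} {a b : Fin (n + 1)}
    (h : b ≠ j ∨ (a ≠ j ∧ (m ≠ m₀ ∨ a ∉ J)) ∨ (a = j ∧ m ∉ M)) :
    RatOn (FN J j M m₀) D (fun y => aN J j M y m a b) := by
  refine RatOn.coord (inl_mem_Fr ?_)
  rintro (e | e) he
  · have h0 : m = e.1 := congrArg Prod.fst he
    have h1 := congrArg Prod.snd he
    simp only [sN, Sum.elim_inl, Sum.inl.injEq, Prod.mk.injEq] at h1
    rcases h with h | h | h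
    · exact h h1.2
    · exact h.1 h1.1
    · apply h.2
      rw [h0]
      exact e.2
  · have h0 : m = m₀ := congrArg Prod.fst he
    have h1 := congrArg Prod.snd he
    simp only [sN, Sum.elim_inr, Sum.inl.injEq, Prod.mk.injEq] at h1
    rcases h with h | ⟨-, h | h⟩ | h
    · exact h h1.2
    · exact h h0
    · apply h
      rw [h1.1]
      exact e.2.1
    · apply e.2.2
      rw [← h1.1, h.1]

theorem xiN_self (y : Ix n l ⊕ EN J j M → ℂ) : xiN J j M y j = 1 := by
  rw [xiN, dif_neg (fun h => h.2 rfl), if_pos rfl]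

theorem xiN_out (y : Ix n l ⊕ EN J j M → ℂ) {i : Fin (n + 1)} (h : i ∉ J) (hij : i ≠ j) :
    xiN J j M y i = 0 := by
  rw [xiN, dif_neg (fun h1 => h h1.1), if_neg hij]

/-- The Euler identity for quadratic forms. -/
theorem euler2 {N : ℕ} (A : Fin N → Fin N → ℂ) (x : Fin N → ℂ) :
    ∑ i, x i * ∑ b, (A i b + A b i) * x b = 2 * ∑ a, ∑ b, A a b * x a * x b := by
  have h1 : ∑ i, x i * ∑ b, (A i b + A b i) * x b =
      (∑ i, ∑ b, A i b * x i * x b) + ∑ i, ∑ b, A b i * x b * x i := by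
    rw [← Finset.sum_add_distrib]
    refine Finset.sum_congr rfl fun i _ => ?_
    rw [Finset.mul_sum, ← Finset.sum_add_distrib]
    refine Finset.sum_congr rfl fun b _ => ?_
    ring
  rw [h1, Finset.sum_comm (f := fun i b => A b i * x b * x i)]
  ring

/-- The bad data. -/
def DN (N : ℕ) (hm₀ : m₀ ∈ M) : Set (Ix n l ⊕ EN J j M → ℂ) :=
  {y | (∀ m ∈ M, ∑ a, ∑ b, aN J j M y m a b * xiN J j M y a * xiN J j M y b = 0) ∧
    ∀ i ∈ J, ∑ m, cN J j M m₀ y m * ∑ b, (aN J j M y m i b + aN J j M y m b i) * xiN J j M y b =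
      y (Sum.inr (Sum.inl ⟨m₀, hm₀⟩)) * (if i = Fin.last n then 0 else xiN J j M y i ^ N)}

theorem rat_aN (N : ℕ) (hm₀ : m₀ ∈ M) (m : Fin (l + 1)) (a b : Fin (n + 1)) :
    RatOn (FN J j M m₀) (DN J j M m₀ N hm₀) (fun y => aN J j M y m a b) := by
  have hxi : ∀ i, RatOn (FN J j M m₀) (DN J j M m₀ N hm₀) (fun y => xiN J j M y i) :=
    rat_xiN J j M m₀
  have hc : ∀ m, RatOn (FN J j M m₀) (DN J j M m₀ N hm₀) (fun y => cN J j M m₀ y m) :=
    rat_cN J j M m₀
  have hκ : RatOn (FN J j M m₀) (DN J j M m₀ N hm₀)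
      (fun y => y (Sum.inr (Sum.inl ⟨m₀, hm₀⟩))) := RatOn.coord (inr_mem_Fr _ _)
  -- the entries `(i, j)` of `A_{m₀}`
  have h1 : ∀ i ∈ J, i ≠ j →
      RatOn (FN J j M m₀) (DN J j M m₀ N hm₀) (fun y => aN J j M y m₀ i j) := by
    intro i hi hij
    have hS : RatOn (FN J j M m₀) (DN J j M m₀ N hm₀) (fun y => ∑ m ∈ Finset.univ.erase m₀,
        cN J j M m₀ y m * ∑ b, (aN J j M y m i b + aN J j M y m b i) * xiN J j M y b) := by
      refine RatOn.sum _ fun m hm => (hc m).mul (RatOn.sum _ fun b _ => ?_)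
      have hm' : m ≠ m₀ := Finset.ne_of_mem_erase hm
      exact ((free_aN J j M m₀ (Or.inr (Or.inl ⟨hij, Or.inl hm'⟩))).add
        (free_aN J j M m₀ (Or.inl hij))).mul (hxi b)
    have hT : RatOn (FN J j M m₀) (DN J j M m₀ N hm₀) (fun y => ∑ b ∈ Finset.univ.erase j,
        (aN J j M y m₀ i b + aN J j M y m₀ b i) * xiN J j M y b) := by
      refine RatOn.sum _ fun b hb => ?_
      have hb' : b ≠ j := Finset.ne_of_mem_erase hb
      exact ((free_aN J j M m₀ (Or.inl hb')).add (free_aN J j M m₀ (Or.inl hij))).mul (hxi b)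
    have hR : RatOn (FN J j M m₀) (DN J j M m₀ N hm₀) (fun y =>
        y (Sum.inr (Sum.inl ⟨m₀, hm₀⟩)) * (if i = Fin.last n then 0 else xiN J j M y i ^ N)) := by
      refine hκ.mul ?_
      by_cases h : i = Fin.last n
      · exact (RatOn.const 0).congr fun y _ => by rw [if_pos h]
      · exact ((hxi i).pow N).congr fun y _ => by rw [if_neg h]
    refine (((hR.sub hS).sub hT).sub (free_aN J j M m₀ (m := m₀) (a := j) (b := i)
      (Or.inl hij))).congr fun y hy => ?_
    have h2 := hy.2 i hi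
    rw [← Finset.add_sum_erase Finset.univ (fun m => cN J j M m₀ y m *
      ∑ b, (aN J j M y m i b + aN J j M y m b i) * xiN J j M y b) (Finset.mem_univ m₀),
      ← Finset.add_sum_erase Finset.univ (fun b => (aN J j M y m₀ i b + aN J j M y m₀ b i) *
        xiN J j M y b) (Finset.mem_univ j), xiN_self] at h2
    have h3 : cN J j M m₀ y m₀ = 1 := by rw [cN, if_pos rfl]
    rw [h3] at h2
    rw [← h2]
    ring
  have h2 : ∀ m a b, ¬ (a = j ∧ b = j) →
      RatOn (FN J j M m₀) (DN J j M m₀ N hm₀) (fun y => aN J j M y m a b) := by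
    intro m a b hab
    by_cases hb : b = j
    · have ha : a ≠ j := fun h => hab ⟨h, hb⟩
      by_cases hm : m = m₀
      · by_cases haJ : a ∈ J
        · rw [hb, hm]
          exact h1 a haJ ha
        · exact free_aN J j M m₀ (Or.inr (Or.inl ⟨ha, Or.inr haJ⟩))
      · exact free_aN J j M m₀ (Or.inr (Or.inl ⟨ha, Or.inl hm⟩))
    · exact free_aN J j M m₀ (Or.inl hb)
  by_cases hab : a = j ∧ b = j
  · rw [hab.1, hab.2]
    by_cases hm : m ∈ M
    · have hS : RatOn (FN J j M m₀) (DN J j M m₀ N hm₀) (fun y =>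
          ∑ x ∈ Finset.univ.erase (j, j), aN J j M y m x.1 x.2 * xiN J j M y x.1 *
            xiN J j M y x.2) := by
        refine RatOn.sum _ fun x hx => ((h2 m x.1 x.2 fun h => ?_).mul (hxi x.1)).mul (hxi x.2)
        exact Finset.ne_of_mem_erase hx (Prod.ext h.1 h.2)
      refine hS.neg.congr fun y hy => ?_
      have h3 := hy.1 m hm
      rw [← Fintype.sum_prod_type' (f := fun a b => aN J j M y m a b * xiN J j M y a *
        xiN J j M y b), ← Finset.add_sum_erase Finset.univ (fun x : Fin (n + 1) × Fin (n + 1) =>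
        aN J j M y m x.1 x.2 * xiN J j M y x.1 * xiN J j M y x.2) (Finset.mem_univ (j, j)),
        xiN_self, mul_one, mul_one] at h3
      exact eq_neg_of_add_eq_zero_left h3
    · exact free_aN J j M m₀ (Or.inr (Or.inr ⟨rfl, hm⟩))
  · exact h2 m a b hab

/-- **The chart for (T0) and (T').** -/
theorem chartN (N : ℕ) (hj : j ∈ J) (hjn : j ≠ Fin.last n) (hm₀ : m₀ ∈ M) :
    Thin {z : Ix n l → ℂ | ∃ (e : EN J j M → ℂ), Sum.elim z e ∈ DN J j M m₀ N hm₀} := by
  classical
  have hsol : ∀ e, RatOn (FN J j M m₀) (DN J j M m₀ N hm₀)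
      (fun y => y (Sum.inl (sN J j M m₀ e))) := by
    rintro (e | e)
    · exact rat_aN J j M m₀ N hm₀ e.1 j j
    · exact rat_aN J j M m₀ N hm₀ m₀ e.1 j
  have hG : RatOn (FN J j M m₀) Set.univ (fun y => y (Sum.inr (Sum.inl ⟨m₀, hm₀⟩)) *
      ∑ i, if i = Fin.last n then 0 else xiN J j M y i ^ (N + 1)) := by
    refine RatOn.mul (RatOn.coord (inr_mem_Fr _ _)) (RatOn.sum _ fun i _ => ?_)
    by_cases h : i = Fin.last n
    · exact (RatOn.const 0).congr fun y _ => by rw [if_pos h]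
    · exact ((rat_xiN J j M m₀ i).pow (N + 1)).congr fun y _ => by rw [if_neg h]
  have h3 : ∀ i, (if i = Fin.last n then 0 else
      xiN J j M (Sum.elim 0 (Sum.elim 1 0) : Ix n l ⊕ EN J j M → ℂ) i ^ (N + 1)) =
      if i = j then 1 else 0 := by
    intro i
    by_cases hij : i = j
    · rw [if_neg (by rw [hij]; exact hjn), if_pos hij, hij, xiN_self, one_pow]
    · rw [if_neg hij]
      split_ifs with h
      · rfl
      · have h5 : xiN J j M (Sum.elim 0 (Sum.elim 1 0) : Ix n l ⊕ EN J j M → ℂ) i = 0 := by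
          rw [xiN]
          split_ifs
          · rfl
          · rfl
        rw [h5]
        exact zero_pow (Nat.succ_ne_zero N)
  have hG₀ : (fun y : Ix n l ⊕ EN J j M → ℂ => y (Sum.inr (Sum.inl ⟨m₀, hm₀⟩)) *
      ∑ i, if i = Fin.last n then 0 else xiN J j M y i ^ (N + 1))
      (Sum.elim 0 (Sum.elim 1 0)) ≠ 0 := by
    change (1 : ℂ) * (∑ i, if i = Fin.last n then 0 else
      xiN J j M (Sum.elim 0 (Sum.elim 1 0) : Ix n l ⊕ EN J j M → ℂ) i ^ (N + 1)) ≠ 0
    rw [Finset.sum_congr rfl fun i _ => h3 i, Finset.sum_ite_eq', if_pos (Finset.mem_univ j),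
      one_mul]
    exact one_ne_zero
  have hD : ∀ y ∈ DN J j M m₀ N hm₀, y ∈ Set.univ ∧ y (Sum.inr (Sum.inl ⟨m₀, hm₀⟩)) *
      (∑ i, if i = Fin.last n then 0 else xiN J j M y i ^ (N + 1)) = 0 := by
    intro y hy
    refine ⟨Set.mem_univ _, ?_⟩
    have h3 : ∑ i ∈ J, xiN J j M y i * ∑ m, cN J j M m₀ y m *
        ∑ b, (aN J j M y m i b + aN J j M y m b i) * xiN J j M y b = 0 := by
      have h4 : ∑ i ∈ J, xiN J j M y i * ∑ m, cN J j M m₀ y m *
          ∑ b, (aN J j M y m i b + aN J j M y m b i) * xiN J j M y b =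
          ∑ m, cN J j M m₀ y m * ∑ i, xiN J j M y i *
            ∑ b, (aN J j M y m i b + aN J j M y m b i) * xiN J j M y b := by
        rw [Finset.sum_subset (Finset.subset_univ J)]
        · simp only [Finset.mul_sum]
          rw [Finset.sum_comm]
          refine Finset.sum_congr rfl fun m _ => Finset.sum_congr rfl fun i _ =>
            Finset.sum_congr rfl fun b _ => ?_
          ring
        · intro i _ hi
          have hij : i ≠ j := fun h => hi (by rw [h]; exact hj)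
          rw [xiN_out J j M y hi hij, zero_mul]
      rw [h4]
      refine Finset.sum_eq_zero fun m _ => ?_
      rw [euler2 (aN J j M y m) (xiN J j M y)]
      by_cases hm : m ∈ M
      · rw [hy.1 m hm, mul_zero, mul_zero]
      · have hmm : m ≠ m₀ := fun h => hm (by rw [h]; exact hm₀)
        rw [cN, if_neg hmm, dif_neg hm, zero_mul]
    rw [Finset.sum_congr rfl fun i hi => by rw [hy.2 i hi]] at h3
    have h5 : ∀ i, xiN J j M y i * (y (Sum.inr (Sum.inl ⟨m₀, hm₀⟩)) *
        (if i = Fin.last n then 0 else xiN J j M y i ^ N)) =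
        y (Sum.inr (Sum.inl ⟨m₀, hm₀⟩)) *
        (if i = Fin.last n then 0 else xiN J j M y i ^ (N + 1)) := by
      intro i
      split_ifs
      · ring
      · ring
    rw [Finset.sum_congr rfl fun i _ => h5 i] at h3
    rw [Finset.mul_sum]
    refine Eq.trans (Eq.symm ?_) h3
    apply Finset.sum_subset (Finset.subset_univ J)
    intro i _ hi
    have hij : i ≠ j := fun h => hi (by rw [h]; exact hj)
    rw [xiN_out J j M y hi hij, zero_pow (Nat.succ_ne_zero N), ite_self, mul_zero]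
  obtain ⟨Φ, h1, h2⟩ := exists_rel (sN J j M m₀) (sN_inj J j M m₀) (DN J j M m₀ N hm₀)
    Set.univ hsol _ hG (Sum.elim 0 (Sum.elim 1 0)) (Set.mem_univ _) hG₀ hD
  refine ⟨Φ, h1, ?_⟩
  rintro z ⟨e, he⟩
  have h3 := h2 (Sum.elim z e) he
  have h4 : (fun i => Sum.elim z e (Sum.inl i)) = z := by
    funext i
    rfl
  rw [h4] at h3
  exact h3

end

end Pool.Agent.QCG
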