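import Mathlib
import Pool.Agent.QCG.ChartN
import Pool.Agent.QCG.Nice2

set_option autoImplicit false

/-! # Genericity (section 9.1) -/

namespace Pool.Agent.QCG

open MvPolynomial Pool.Agent.QC

section

variable {n l : ℕ}

theorem qform_smul {N : ℕ} (p : QPc N) (a : ℂ) (x : Fin N → ℂ) :
    qform p (fun i => a * x i) = a ^ 2 * qform p x := by
  rw [qform, qform, Finset.mul_sum]
  refine Finset.sum_congr rfl fun i _ => ?_
  rw [Finset.mul_sum]
  refine Finset.sum_congr rfl fun j _ => ?_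
  ring

theorem qfgrad_smul {N : ℕ} (p : QPc N) (k : Fin N) (a : ℂ) (x : Fin N → ℂ) :
    qfgrad p k (fun i => a * x i) = a * qfgrad p k x := by
  rw [qfgrad, qfgrad, Finset.mul_sum]
  refine Finset.sum_congr rfl fun i _ => ?_
  ring

theorem mem_DN {J : Finset (Fin (n + 1))} {j : Fin (n + 1)} {M : Finset (Fin (l + 1))}
    {m₀ : Fin (l + 1)} (N : ℕ) (hm₀ : m₀ ∈ M) {z : Ix n l → ℂ} {ξ : Fin (n + 1) → ℂ}
    {c : Fin (l + 1) → ℂ} {κ : ℂ} (h1 : ξ j = 1) (h2 : ∀ i, i ∉ J → ξ i = 0) (h3 : c m₀ = 1)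
    (h4 : ∀ m, m ∈ M ↔ c m ≠ 0) (h5 : ∀ m ∈ M, qform (tz z m) ξ = 0)
    (h6 : ∀ i ∈ J, ∑ m, c m * qfgrad (tz z m) i ξ =
      κ * (if i = Fin.last n then 0 else ξ i ^ N)) :
    ∃ e : EN J j M → ℂ, Sum.elim z e ∈ DN J j M m₀ N hm₀ := by
  classical
  let e : EN J j M → ℂ := Sum.elim (fun m => if m.1 = m₀ then κ else c m.1) (fun i => ξ i.1)
  have hx : ∀ i, xiN J j M (Sum.elim z e) i = ξ i := by
    intro i
    rw [xiN]
    split_ifs with h h'
    · rfl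
    · rw [h', h1]
    · refine (h2 i fun hi => h ⟨hi, h'⟩).symm
  have hc : ∀ m, cN J j M m₀ (Sum.elim z e) m = c m := by
    intro m
    rw [cN]
    split_ifs with h h'
    · rw [h, h3]
    · change (if m = m₀ then κ else c m) = c m
      rw [if_neg h]
    · by_contra h7
      exact h' ((h4 m).mpr (Ne.symm h7))
  have hκ : Sum.elim z e (Sum.inr (Sum.inl ⟨m₀, hm₀⟩)) = κ := by
    change (if m₀ = m₀ then κ else c m₀) = κ
    rw [if_pos rfl]
  refine ⟨e, fun m hm => ?_, fun i hi => ?_⟩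
  · have h7 := h5 m hm
    simp only [hx]
    exact h7
  · have h7 := h6 i hi
    rw [hκ]
    simp only [hx, hc]
    exact h7

/-- The bad set of one chart. -/
def BN (J : Finset (Fin (n + 1))) (N : ℕ)
    (x : Fin n × Finset (Fin (l + 1)) × Fin (l + 1)) : Set (Ix n l → ℂ) :=
  {z | ∃ hm₀ : x.2.2 ∈ x.2.1, ∃ e : EN J x.1.castSucc x.2.1 → ℂ,
    Sum.elim z e ∈ DN J x.1.castSucc x.2.1 x.2.2 N hm₀}

theorem thin_BN {J : Finset (Fin (n + 1))} (hJ : ∀ i : Fin n, i.castSucc ∈ J) (N : ℕ)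
    (x : Fin n × Finset (Fin (l + 1)) × Fin (l + 1)) : Thin (BN J N x) := by
  by_cases hm₀ : x.2.2 ∈ x.2.1
  · refine (chartN J x.1.castSucc x.2.1 x.2.2 N (hJ x.1) (Fin.castSucc_ne_last x.1) hm₀).mono ?_
    rintro z ⟨_, h⟩
    exact h
  · refine ⟨1, one_ne_zero, ?_⟩
    rintro z ⟨h, _⟩
    exact absurd h hm₀

/-- The normalisation of bad data. -/
theorem exists_BN {J : Finset (Fin (n + 1))} (N : ℕ)
    (hJ : ∀ i : Fin n, i.castSucc ∈ J) {z : Ix n l → ℂ}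
    {ξ : Fin (n + 1) → ℂ} {c : Fin (l + 1) → ℂ} {κ : ℂ} {i₀ : Fin n}
    (h1 : ξ i₀.castSucc ≠ 0) (h2 : ∀ i, i ∉ J → ξ i = 0)
    (h5 : ∀ m, c m * qform (tz z m) ξ = 0)
    (h6 : ∀ i ∈ J, ∑ m, c m * qfgrad (tz z m) i ξ =
      κ * (if i = Fin.last n then 0 else ξ i ^ N)) (hne : ¬ (c = 0 ∧ κ = 0)) :
    ∃ x, z ∈ BN J N x := by
  classical
  obtain ⟨m₀, hm₀⟩ : ∃ m₀, c m₀ ≠ 0 := by
    by_contra hcon
    push Not at hcon
    have hc : c = 0 := funext hcon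
    have h7 := h6 _ (hJ i₀)
    rw [if_neg (Fin.castSucc_ne_last i₀)] at h7
    simp only [hc, Pi.zero_apply, zero_mul, Finset.sum_const_zero] at h7
    exact hne ⟨hc, (mul_eq_zero.mp h7.symm).resolve_right (pow_ne_zero N h1)⟩
  refine ⟨(i₀, Finset.univ.filter fun m => c m ≠ 0, m₀), by simpa using hm₀, ?_⟩
  have ha : (ξ i₀.castSucc)⁻¹ * ξ i₀.castSucc = 1 := inv_mul_cancel₀ h1
  refine mem_DN N (by simpa using hm₀) (ξ := fun i => (ξ i₀.castSucc)⁻¹ * ξ i)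
    (c := fun m => (c m₀)⁻¹ * c m)
    (κ := (c m₀)⁻¹ * ((ξ i₀.castSucc)⁻¹ * (κ * ξ i₀.castSucc ^ N))) ha ?_ ?_ ?_ ?_ ?_
  · intro i hi
    rw [h2 i hi, mul_zero]
  · exact inv_mul_cancel₀ hm₀
  · intro m
    rw [Finset.mem_filter]
    constructor
    · rintro ⟨-, h⟩
      exact mul_ne_zero (inv_ne_zero hm₀) h
    · intro h
      exact ⟨Finset.mem_univ m, right_ne_zero_of_mul h⟩
  · intro m hm
    have hcm : c m ≠ 0 := (Finset.mem_filter.mp hm).2
    rw [qform_smul, (mul_eq_zero.mp (h5 m)).resolve_left hcm, mul_zero]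
  · intro i hi
    have h7 := h6 i hi
    have h8 : ∑ m, (c m₀)⁻¹ * c m * qfgrad (tz z m) i (fun i => (ξ i₀.castSucc)⁻¹ * ξ i) =
        (c m₀)⁻¹ * ((ξ i₀.castSucc)⁻¹ * ∑ m, c m * qfgrad (tz z m) i ξ) := by
      rw [Finset.mul_sum, Finset.mul_sum]
      refine Finset.sum_congr rfl fun m _ => ?_
      rw [qfgrad_smul]
      ring
    rw [h8, h7]
    split_ifs with h
    · ring
    · have h9 : ξ i₀.castSucc ^ N * ((ξ i₀.castSucc)⁻¹ * ξ i) ^ N = ξ i ^ N := by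
        rw [← mul_pow, ← mul_assoc, mul_inv_cancel₀ h1, one_mul]
      rw [mul_assoc, mul_assoc, mul_assoc, h9]

/-- **(T0) is generic.** -/
theorem thin_T0 : Thin {z : Ix n l → ℂ | ¬ T0 (tz z)} := by
  have h1 := Thin.iUnion fun x : Fin n × Finset (Fin (l + 1)) × Fin (l + 1) =>
    thin_BN (J := Finset.univ) (fun i => Finset.mem_univ i.castSucc) (DD l - 1) x
  have h2 : Thin (⋃ m : Fin (l + 1), {z : Ix n l → ℂ |
      z (m, Sum.inl (Fin.last n, Fin.last n)) = 0}) := by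
    refine Thin.iUnion fun m => ⟨X (m, Sum.inl (Fin.last n, Fin.last n)), X_ne_zero _, ?_⟩
    intro q hq
    rw [eval_X]
    exact hq
  refine (h1.union h2).mono fun z hz => ?_
  by_contra hcon
  simp only [Set.mem_union, not_or, Set.mem_iUnion, not_exists] at hcon
  obtain ⟨c1, c2⟩ := hcon
  apply hz
  refine ⟨fun ξ hξ c κ e1 e2 e3 => ?_, fun m h => c2 m h⟩
  obtain ⟨i₀, hi₀⟩ := hξ
  by_contra hne
  obtain ⟨x, hx⟩ := exists_BN (J := Finset.univ) (DD l - 1)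
    (fun i => Finset.mem_univ i.castSucc) hi₀ (fun i hi => absurd (Finset.mem_univ i) hi) e1
    (κ := κ) (fun i _ => by
      induction i using Fin.lastCases with
      | last => rw [e3, if_pos rfl, mul_zero]
      | cast i => rw [e2 i, if_neg (Fin.castSucc_ne_last i)]) hne
  exact c1 x hx

/-- **(T') is generic.** -/
theorem thin_T1 : Thin {z : Ix n l → ℂ | ¬ T1 (tz z)} := by
  classical
  have hJ : ∀ i : Fin n, i.castSucc ∈ Finset.univ.erase (Fin.last n) := fun i =>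
    Finset.mem_erase.mpr ⟨Fin.castSucc_ne_last i, Finset.mem_univ _⟩
  have h1 := Thin.iUnion fun x : Fin n × Finset (Fin (l + 1)) × Fin (l + 1) =>
    thin_BN hJ (DD l - 1) x
  refine h1.mono fun z hz => ?_
  by_contra hcon
  simp only [Set.mem_iUnion, not_exists] at hcon
  apply hz
  intro ξ hξ hn c κ e1 e2
  obtain ⟨i₀, hi₀⟩ : ∃ i₀ : Fin n, ξ i₀.castSucc ≠ 0 := by
    by_contra hcon
    push Not at hcon
    apply hξ
    funext i
    induction i using Fin.lastCases with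
    | last => exact hn
    | cast i => exact hcon i
  by_contra hne
  obtain ⟨x, hx⟩ := exists_BN (DD l - 1) hJ hi₀ (fun i hi => by
      have h2 : i = Fin.last n := by
        by_contra h3
        exact hi (Finset.mem_erase.mpr ⟨h3, Finset.mem_univ i⟩)
      rw [h2, hn]) e1 (κ := κ) (fun i hi => by
      obtain ⟨i, rfl⟩ := Fin.exists_castSucc_eq.mpr (Finset.ne_of_mem_erase hi)
      rw [e2 i, if_neg (Fin.castSucc_ne_last i)]) hne
  exact hcon x hx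

theorem thin_tz {P : Tup n l → Prop} (h : Thin {z : Ix n l → ℂ | ¬ P (tz z)}) :
    ∃ Phi : MvPolynomial (Ix n l) ℂ, Phi ≠ 0 ∧ ∀ q, eval (cfs q) Phi ≠ 0 → P q := by
  obtain ⟨Φ, h1, h2⟩ := h
  refine ⟨Φ, h1, fun q hq => ?_⟩
  by_contra hP
  apply hq
  apply h2
  rw [Set.mem_ofPred_eq, tz_cfs]
  exact hP

/-- **(9.1) Genericity.** -/
theorem genericity_l (n l : ℕ) (hl : 1 ≤ l) :
    ∃ Phi : MvPolynomial (Ix n l) ℂ, Phi ≠ 0 ∧ GoodPhi Phi := by
  obtain ⟨Φ0, a0, b0⟩ := thin_tz (thin_T0 (n := n) (l := l))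
  obtain ⟨Φ1, a1, b1⟩ := thin_tz (thin_T1 (n := n) (l := l))
  obtain ⟨Φ2, a2, b2⟩ := thin_transfer (P := N2) (thin_N2 (n := n) hl)
  obtain ⟨Φ3, a3, b3⟩ := thin_transfer (P := fun q => ∀ t, N3at (addT q t))
    (thin_N3 (n := n) hl)
  refine ⟨Φ0 * Φ1 * (Φ2 * Φ3), mul_ne_zero (mul_ne_zero a0 a1) (mul_ne_zero a2 a3),
    fun q hq => ?_⟩
  rw [map_mul, map_mul, map_mul] at hq
  have h1 := left_ne_zero_of_mul hq
  have h2 := right_ne_zero_of_mul hq
  exact ⟨b0 q (left_ne_zero_of_mul h1), b1 q (right_ne_zero_of_mul h1),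
    b2 q (left_ne_zero_of_mul h2), b3 q (right_ne_zero_of_mul h2)⟩

end

end Pool.Agent.QCG
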